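import Mathlib

set_option autoImplicit false
open Set Topology Filter

namespace Pool.Agent.Results.MP_07b410_co.Stoker

/-- Euclidean 3-space. -/
abbrev E3 := EuclideanSpace ℝ (Fin 3)

/-- The intersection of the closed unit balls centred at `c 0, …, c (n-1)`. -/
def body {n : ℕ} (c : Fin n → E3) : Set E3 := ⋂ i, Metric.closedBall (c i) 1

/-- The centres `c` generate a ball-polyhedron irredundantly: the intersection has nonempty
interior and no ball can be omitted without changing the intersection. -/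
def IsBallPolyhedron {n : ℕ} (c : Fin n → E3) : Prop :=
  (interior (body c)).Nonempty ∧
    ∀ i, (⋂ j ∈ {j | j ≠ i}, Metric.closedBall (c j) 1) ≠ body c

/-- The (indices of the) generating spheres that pass through `x`. -/
noncomputable def spheresThrough {n : ℕ} (c : Fin n → E3) (x : E3) : Finset (Fin n) :=
  Finset.univ.filter fun i => dist x (c i) = 1

/-- Faces: the intersections of the body with the generating spheres. -/
def IsFace {n : ℕ} (c : Fin n → E3) (A : Set E3) : Prop :=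
  ∃ i, A = body c ∩ Metric.sphere (c i) 1

/-- Vertices: the boundary points lying on at least three generating spheres. -/
def IsVertex {n : ℕ} (c : Fin n → E3) (v : E3) : Prop :=
  v ∈ frontier (body c) ∧ 3 ≤ (spheresThrough c v).card

/-- The boundary points lying on exactly two generating spheres. -/
def edgePoints {n : ℕ} (c : Fin n → E3) : Set E3 :=
  {x | x ∈ frontier (body c) ∧ (spheresThrough c x).card = 2}

/-- Edges: the closures of the connected components of `edgePoints c`. -/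
def IsEdge {n : ℕ} (c : Fin n → E3) (A : Set E3) : Prop :=
  ∃ x ∈ edgePoints c, A = closure (connectedComponentIn (edgePoints c) x)

/-- The family consisting of the empty set, the body, the vertices (as singletons), the edges and
the faces.  As a type it is ordered by inclusion. -/
def facePoset {n : ℕ} (c : Fin n → E3) : Set (Set E3) :=
  {A | A = ∅ ∨ A = body c ∨ (∃ v, IsVertex c v ∧ A = {v}) ∨ IsEdge c A ∨ IsFace c A}

/-- Standard ball-polyhedra: the face poset is a lattice, i.e. any two elements have a least upper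
bound and a greatest lower bound. -/
def IsStandard {n : ℕ} (c : Fin n → E3) : Prop :=
  IsBallPolyhedron c ∧ ∀ A B : facePoset c,
    (∃ C : facePoset c, IsLUB {A, B} C) ∧ (∃ C : facePoset c, IsGLB {A, B} C)

/-- `θ` is the inner dihedral angle of the edge `e`, computed at some point `p` of the relative
interior of `e` (a point of `e` lying on exactly two generating spheres, with centres `c i`,
`c j`): the wedge is cut out by the half-spaces with inner unit normals `c i - p` and `c j - p`,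
so its angular measure is `π` minus the angle between these normals. -/
def IsInnerDihedralAngle {n : ℕ} (c : Fin n → E3) (e : Set E3) (θ : ℝ) : Prop :=
  ∃ p ∈ e ∩ edgePoints c, ∃ i j, i ≠ j ∧ p ∈ Metric.sphere (c i) 1 ∧ p ∈ Metric.sphere (c j) 1 ∧
    θ = Real.pi - InnerProductGeometry.angle (c i - p) (c j - p)

/-- `u` is the unit direction of the tangent half-line at `v` of the arc `e` ending at `v`. -/
def IsTangentDir (e : Set E3) (v u : E3) : Prop :=
  ‖u‖ = 1 ∧ (𝓝[e \ {v}] v).NeBot ∧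
    Tendsto (fun x => ‖x - v‖⁻¹ • (x - v)) (𝓝[e \ {v}] v) (𝓝 u)

/-- `θ` is the face angle of the face `F` at its vertex `v`: the angle at `v` between the tangent
half-lines of two different edges of `F` that meet at `v`. -/
def IsFaceAngle {n : ℕ} (c : Fin n → E3) (v : E3) (F : Set E3) (θ : ℝ) : Prop :=
  ∃ e₁ e₂, IsEdge c e₁ ∧ IsEdge c e₂ ∧ e₁ ≠ e₂ ∧ e₁ ⊆ F ∧ e₂ ⊆ F ∧ v ∈ e₁ ∧ v ∈ e₂ ∧
    ∃ u₁ u₂, IsTangentDir e₁ v u₁ ∧ IsTangentDir e₂ v u₂ ∧ θ = InnerProductGeometry.angle u₁ u₂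

/-! ### Generic part -/

section generic

variable {n : ℕ} (c : Fin n → E3)

/-- The points of the body lying on all spheres of `I`. -/
def G (I : Finset (Fin n)) : Set E3 := {x | x ∈ body c ∧ I ⊆ spheresThrough c x}

/-- The points of the body lying exactly on the spheres of `I`. -/
def Ex (I : Finset (Fin n)) : Set E3 := {x | x ∈ body c ∧ spheresThrough c x = I}

theorem mem_spheresThrough (x : E3) (i : Fin n) :
    i ∈ spheresThrough c x ↔ x ∈ Metric.sphere (c i) 1 := by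
  rw [Metric.mem_sphere]; simp only [spheresThrough, Finset.mem_filter, Finset.mem_univ, true_and]

theorem isClosed_body : IsClosed (body c) :=
  isClosed_iInter fun _ => Metric.isClosed_closedBall

theorem isClosed_G (I : Finset (Fin n)) : IsClosed (G c I) := by
  have : G c I = body c ∩ ⋂ i ∈ I, Metric.sphere (c i) 1 := by
    ext x
    simp only [G, mem_ofPred_eq, mem_inter_iff, mem_iInter, Finset.subset_iff, mem_spheresThrough]
  rw [this]
  exact (isClosed_body c).inter (isClosed_biInter fun _ _ => Metric.isClosed_sphere)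

theorem mem_frontier_of (x : E3) (hx : x ∈ body c) (h : (spheresThrough c x).Nonempty) :
    x ∈ frontier (body c) := by
  obtain ⟨i, hi⟩ := h
  rw [mem_spheresThrough] at hi
  rw [(isClosed_body c).frontier_eq]
  refine ⟨hx, fun hint => ?_⟩
  have h1 : interior (body c) ⊆ interior (Metric.closedBall (c i) 1) :=
    interior_mono (iInter_subset _ i)
  have h2 := h1 hint
  rw [interior_closedBall _ one_ne_zero] at h2
  rw [Metric.mem_ball] at h2
  rw [Metric.mem_sphere] at hi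
  linarith

theorem frontier_subset_body : frontier (body c) ⊆ body c :=
  (isClosed_body c).frontier_subset

/-- The combinatorial description of a ball-polyhedron by a family `L` of index sets. -/
structure Typ (L : Finset (Finset (Fin n))) : Prop where
  hA : ∀ x ∈ body c, spheresThrough c x ∈ L ∧ spheresThrough c x ≠ Finset.univ
  hB : ∀ I ∈ L, I ≠ Finset.univ → (Ex c I).Nonempty
  hD : ∀ I ∈ L, 3 ≤ I.card → (G c I).Subsingleton
  hE1 : ∀ I ∈ L, I.card = 2 → IsPreconnected (Ex c I)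
  hE2 : ∀ I ∈ L, I.card = 2 → G c I ⊆ closure (Ex c I)
  hn : 3 ≤ n
  hempty : ∅ ∈ L
  huniv : Finset.univ ∈ L
  hsing : ∀ i, {i} ∈ L
  hinter : ∀ I ∈ L, ∀ J ∈ L, I ∩ J ∈ L

variable {c} {L : Finset (Finset (Fin n))}

theorem edgePoints_eq : edgePoints c = {x | x ∈ body c ∧ (spheresThrough c x).card = 2} := by
  ext x
  constructor
  · rintro ⟨h1, h2⟩
    exact ⟨frontier_subset_body c h1, h2⟩
  · rintro ⟨h1, h2⟩
    refine ⟨mem_frontier_of c x h1 ?_, h2⟩
    rw [← Finset.card_pos]; omega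

theorem isVertex_iff (v : E3) : IsVertex c v ↔ v ∈ body c ∧ 3 ≤ (spheresThrough c v).card := by
  constructor
  · rintro ⟨h1, h2⟩
    exact ⟨frontier_subset_body c h1, h2⟩
  · rintro ⟨h1, h2⟩
    refine ⟨mem_frontier_of c v h1 ?_, h2⟩
    rw [← Finset.card_pos]; omega

theorem Typ.G_univ (T : Typ c L) : G c Finset.univ = ∅ := by
  ext x
  simp only [G, mem_ofPred_eq, mem_empty_iff_false, iff_false]
  rintro ⟨h1, h2⟩
  exact (T.hA x h1).2 (Finset.univ_subset_iff.mp h2)

theorem G_empty : G c ∅ = body c := by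
  ext x; simp [G]

theorem G_sing (i : Fin n) : G c {i} = body c ∩ Metric.sphere (c i) 1 := by
  ext x; simp [G, mem_spheresThrough]

theorem Ex_subset_G (I : Finset (Fin n)) : Ex c I ⊆ G c I := by
  rintro x ⟨h1, h2⟩
  exact ⟨h1, h2.ge⟩

theorem Typ.G_subset_iff (T : Typ c L) {I J : Finset (Fin n)} (hI : I ∈ L) :
    G c I ⊆ G c J ↔ J ⊆ I := by
  constructor
  · intro h
    by_cases hu : I = Finset.univ
    · rw [hu]; exact Finset.subset_univ _
    · obtain ⟨x, hx⟩ := T.hB I hI hu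
      have := (h (Ex_subset_G I hx)).2
      rwa [hx.2] at this
  · rintro h x ⟨h1, h2⟩
    exact ⟨h1, h.trans h2⟩

theorem Typ.comp_eq (T : Typ c L) {x : E3} (hx : x ∈ edgePoints c) :
    connectedComponentIn (edgePoints c) x = Ex c (spheresThrough c x) := by
  have hx' := hx
  rw [edgePoints_eq] at hx'
  obtain ⟨hxb, hxc⟩ := hx'
  have hxL := (T.hA x hxb).1
  apply subset_antisymm
  · have hC : IsPreconnected (connectedComponentIn (edgePoints c) x) :=
      isPreconnected_connectedComponentIn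
    have hCs : connectedComponentIn (edgePoints c) x ⊆ edgePoints c :=
      connectedComponentIn_subset _ _
    rw [isPreconnected_closed_iff] at hC
    set R : Set E3 := ⋃ J ∈ {J | J ∈ L ∧ J.card = 2 ∧ J ≠ spheresThrough c x}, G c J with hR
    have hRc : IsClosed R := by
      refine Set.Finite.isClosed_biUnion (Set.toFinite _) (fun J _ => isClosed_G c J)
    have hcov : connectedComponentIn (edgePoints c) x ⊆ G c (spheresThrough c x) ∪ R := by
      intro y hy
      have hy' := hCs hy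
      rw [edgePoints_eq] at hy'
      obtain ⟨hyb, hyc⟩ := hy'
      by_cases h : spheresThrough c y = spheresThrough c x
      · left; exact ⟨hyb, h.ge⟩
      · right
        simp only [hR, mem_iUnion]
        exact ⟨spheresThrough c y, ⟨(T.hA y hyb).1, hyc, h⟩, hyb, subset_rfl⟩
    intro y hy
    have hy' := hCs hy
    rw [edgePoints_eq] at hy'
    obtain ⟨hyb, hyc⟩ := hy'
    refine ⟨hyb, ?_⟩
    by_contra h
    have h1 : (connectedComponentIn (edgePoints c) x ∩ R).Nonempty := by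
      refine ⟨y, hy, ?_⟩
      simp only [hR, mem_iUnion]
      exact ⟨spheresThrough c y, ⟨(T.hA y hyb).1, hyc, h⟩, hyb, subset_rfl⟩
    have h2 : (connectedComponentIn (edgePoints c) x ∩ G c (spheresThrough c x)).Nonempty :=
      ⟨x, mem_connectedComponentIn hx, hxb, subset_rfl⟩
    obtain ⟨z, hz, hz1, hz2⟩ := hC _ _ (isClosed_G c _) hRc hcov h2 h1
    have hz' := hCs hz
    rw [edgePoints_eq] at hz'
    obtain ⟨hzb, hzc⟩ := hz'
    simp only [hR, mem_iUnion] at hz2
    obtain ⟨J, ⟨hJL, hJc, hJne⟩, hJz⟩ := hz2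
    have e1 : spheresThrough c x = spheresThrough c z :=
      Finset.eq_of_subset_of_card_le hz1.2 (by rw [hzc, hxc])
    have e2 : J = spheresThrough c z :=
      Finset.eq_of_subset_of_card_le hJz.2 (by rw [hzc, hJc])
    exact hJne (e2.trans e1.symm)
  · refine IsPreconnected.subset_connectedComponentIn (T.hE1 _ hxL hxc) ⟨hxb, rfl⟩ ?_
    intro y hy
    rw [edgePoints_eq]
    exact ⟨hy.1, by rw [hy.2, hxc]⟩

theorem Typ.closure_Ex (T : Typ c L) {I : Finset (Fin n)} (hI : I ∈ L) (hc : I.card = 2) :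
    closure (Ex c I) = G c I :=
  subset_antisymm (closure_minimal (Ex_subset_G I) (isClosed_G c I)) (T.hE2 I hI hc)

theorem Typ.isEdge_iff (T : Typ c L) (A : Set E3) :
    IsEdge c A ↔ ∃ I ∈ L, I.card = 2 ∧ A = G c I := by
  constructor
  · rintro ⟨x, hx, rfl⟩
    rw [T.comp_eq hx]
    rw [edgePoints_eq] at hx
    exact ⟨spheresThrough c x, (T.hA x hx.1).1, hx.2, T.closure_Ex (T.hA x hx.1).1 hx.2⟩
  · rintro ⟨I, hI, hc, rfl⟩
    have hu : I ≠ Finset.univ := by
      rintro rfl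
      rw [Finset.card_univ, Fintype.card_fin] at hc
      have := T.hn
      omega
    obtain ⟨x, hx⟩ := T.hB I hI hu
    have hxe : x ∈ edgePoints c := by
      rw [edgePoints_eq]
      exact ⟨hx.1, by rw [hx.2, hc]⟩
    refine ⟨x, hxe, ?_⟩
    rw [T.comp_eq hxe, hx.2, T.closure_Ex hI hc]

theorem Typ.isVertex_iff' (T : Typ c L) (A : Set E3) :
    (∃ v, IsVertex c v ∧ A = {v}) ↔ ∃ I ∈ L, 3 ≤ I.card ∧ I ≠ Finset.univ ∧ A = G c I := by
  constructor
  · rintro ⟨v, hv, rfl⟩
    rw [isVertex_iff] at hv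
    refine ⟨spheresThrough c v, (T.hA v hv.1).1, hv.2, (T.hA v hv.1).2, ?_⟩
    refine ((T.hD _ (T.hA v hv.1).1 hv.2).eq_singleton_of_mem ?_).symm
    exact ⟨hv.1, subset_rfl⟩
  · rintro ⟨I, hI, hc, hu, rfl⟩
    obtain ⟨x, hx⟩ := T.hB I hI hu
    refine ⟨x, ?_, (T.hD _ hI hc).eq_singleton_of_mem (Ex_subset_G I hx)⟩
    rw [isVertex_iff]
    exact ⟨hx.1, by rw [hx.2]; exact hc⟩

theorem Typ.isFace_iff (A : Set E3) : IsFace c A ↔ ∃ I : Finset (Fin n), I.card = 1 ∧ A = G c I := by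
  constructor
  · rintro ⟨i, rfl⟩
    exact ⟨{i}, by simp, (G_sing i).symm⟩
  · rintro ⟨I, hI, rfl⟩
    obtain ⟨i, rfl⟩ := Finset.card_eq_one.mp hI
    exact ⟨i, G_sing i⟩

theorem Typ.mem_facePoset_iff (T : Typ c L) (A : Set E3) :
    A ∈ facePoset c ↔ ∃ I ∈ L, A = G c I := by
  simp only [facePoset, mem_ofPred_eq]
  rw [T.isVertex_iff', T.isEdge_iff, Typ.isFace_iff]
  constructor
  · rintro (h | h | ⟨I, hI, -, -, h⟩ | ⟨I, hI, -, h⟩ | ⟨I, hI, h⟩)
    · exact ⟨_, T.huniv, by rw [h, T.G_univ]⟩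
    · exact ⟨_, T.hempty, by rw [h, G_empty]⟩
    · exact ⟨I, hI, h⟩
    · exact ⟨I, hI, h⟩
    · obtain ⟨i, rfl⟩ := Finset.card_eq_one.mp hI
      exact ⟨{i}, T.hsing i, h⟩
  · rintro ⟨I, hI, rfl⟩
    by_cases hu : I = Finset.univ
    · left; rw [hu, T.G_univ]
    right
    rcases Nat.lt_or_ge I.card 3 with h3 | h3
    · interval_cases h : I.card
      · left; rw [Finset.card_eq_zero.mp h, G_empty]
      · right; right; right; exact ⟨I, h, rfl⟩
      · right; right; left; exact ⟨I, hI, h, rfl⟩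
    · right; left; exact ⟨I, hI, h3, hu, rfl⟩

/-- The index set of an element of the face poset. -/
noncomputable def Typ.idx (T : Typ c L) (A : facePoset c) : Finset (Fin n) :=
  ((T.mem_facePoset_iff A.1).mp A.2).choose

theorem Typ.idx_mem (T : Typ c L) (A : facePoset c) : T.idx A ∈ L :=
  ((T.mem_facePoset_iff A.1).mp A.2).choose_spec.1

theorem Typ.idx_eq (T : Typ c L) (A : facePoset c) : A.1 = G c (T.idx A) :=
  ((T.mem_facePoset_iff A.1).mp A.2).choose_spec.2

theorem Typ.G_inj (T : Typ c L) {I J : Finset (Fin n)} (hI : I ∈ L) (hJ : J ∈ L)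
    (h : G c I = G c J) : I = J :=
  subset_antisymm ((T.G_subset_iff hJ).mp h.ge) ((T.G_subset_iff hI).mp h.le)

theorem Typ.isStandard (T : Typ c L) (hb : IsBallPolyhedron c) : IsStandard c := by
  refine ⟨hb, fun A B => ⟨?_, ?_⟩⟩
  · set I := T.idx A
    set J := T.idx B
    have hK : I ∩ J ∈ L := T.hinter _ (T.idx_mem A) _ (T.idx_mem B)
    refine ⟨⟨G c (I ∩ J), (T.mem_facePoset_iff _).mpr ⟨_, hK, rfl⟩⟩, ?_, ?_⟩
    · rintro C (rfl | rfl)
      · change C.1 ⊆ G c (I ∩ J)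
        rw [T.idx_eq C]
        exact (T.G_subset_iff (T.idx_mem C)).mpr Finset.inter_subset_left
      · change C.1 ⊆ G c (I ∩ J)
        rw [T.idx_eq C]
        exact (T.G_subset_iff (T.idx_mem C)).mpr Finset.inter_subset_right
    · intro D hD
      have h1 : A.1 ⊆ D.1 := hD (by simp)
      have h2 : B.1 ⊆ D.1 := hD (by simp)
      change G c (I ∩ J) ⊆ D.1
      rw [T.idx_eq D] at h1 h2 ⊢
      rw [T.idx_eq A, T.G_subset_iff (T.idx_mem A)] at h1
      rw [T.idx_eq B, T.G_subset_iff (T.idx_mem B)] at h2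
      exact (T.G_subset_iff hK).mpr (Finset.subset_inter h1 h2)
  · set I := T.idx A
    set J := T.idx B
    -- the intersection of all members of `L` containing `I ∪ J`
    set S := L.filter (fun K => I ⊆ K ∧ J ⊆ K) with hS
    have hSne : S.Nonempty := ⟨Finset.univ, by simp [hS, T.huniv]⟩
    set K := S.inf' hSne id with hKdef
    have hKL : K ∈ L := by
      have : ∀ t ∈ S, id t ∈ (L : Set (Finset (Fin n))) := by
        intro t ht
        simp only [hS, Finset.mem_filter] at ht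
        exact ht.1
      exact Finset.inf'_mem (L : Set (Finset (Fin n))) (fun x hx y hy => T.hinter x hx y hy)
        S hSne id this
    have hIK : I ⊆ K := by
      refine (Finset.le_inf'_iff hSne _).mpr (fun t ht => ?_)
      simp only [hS, Finset.mem_filter] at ht
      exact ht.2.1
    have hJK : J ⊆ K := by
      refine (Finset.le_inf'_iff hSne _).mpr (fun t ht => ?_)
      simp only [hS, Finset.mem_filter] at ht
      exact ht.2.2
    refine ⟨⟨G c K, (T.mem_facePoset_iff _).mpr ⟨_, hKL, rfl⟩⟩, ?_, ?_⟩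
    · rintro C (rfl | rfl)
      · change G c K ⊆ C.1
        rw [T.idx_eq C]
        exact (T.G_subset_iff hKL).mpr hIK
      · change G c K ⊆ C.1
        rw [T.idx_eq C]
        exact (T.G_subset_iff hKL).mpr hJK
    · intro D hD
      have h1 : D.1 ⊆ A.1 := hD (by simp)
      have h2 : D.1 ⊆ B.1 := hD (by simp)
      change D.1 ⊆ G c K
      rw [T.idx_eq D] at h1 h2 ⊢
      rw [T.idx_eq A, T.G_subset_iff (T.idx_mem D)] at h1
      rw [T.idx_eq B, T.G_subset_iff (T.idx_mem D)] at h2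
      refine (T.G_subset_iff (T.idx_mem D)).mpr ?_
      exact Finset.inf'_le id (b := T.idx D) (by simp [hS, T.idx_mem D]; exact ⟨h1, h2⟩)

theorem Typ.idx_of (T : Typ c L) {I : Finset (Fin n)} (hI : I ∈ L) (A : facePoset c)
    (h : A.1 = G c I) : T.idx A = I :=
  T.G_inj (T.idx_mem A) hI ((T.idx_eq A).symm.trans h)

theorem Typ.exists_iso {c' : Fin n → E3} (T : Typ c L) (T' : Typ c' L) :
    ∃ φ : facePoset c ≃o facePoset c', ∀ (A : facePoset c) (I : Finset (Fin n)), I ∈ L →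
      A.1 = G c I → (φ A).1 = G c' I := by
  refine ⟨
    { toFun := fun A => ⟨G c' (T.idx A), (T'.mem_facePoset_iff _).mpr ⟨_, T.idx_mem A, rfl⟩⟩
      invFun := fun B => ⟨G c (T'.idx B), (T.mem_facePoset_iff _).mpr ⟨_, T'.idx_mem B, rfl⟩⟩
      left_inv := ?_
      right_inv := ?_
      map_rel_iff' := ?_ }, ?_⟩
  · intro A
    apply Subtype.ext
    change G c (T'.idx _) = A.1
    rw [T'.idx_of (T.idx_mem A) _ rfl, ← T.idx_eq A]
  · intro B
    apply Subtype.ext
    change G c' (T.idx _) = B.1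
    rw [T.idx_of (T'.idx_mem B) _ rfl, ← T'.idx_eq B]
  · intro A B
    change G c' (T.idx A) ⊆ G c' (T.idx B) ↔ A.1 ⊆ B.1
    rw [T.idx_eq A, T.idx_eq B, T'.G_subset_iff (T.idx_mem A), T.G_subset_iff (T.idx_mem A)]
  · intro A I hI h
    change G c' (T.idx A) = G c' I
    rw [T.idx_of hI A h]

end generic

/-! ### The family of examples -/

/-- sign of a Boolean -/
def sg : Bool → ℝ := fun s => if s then 1 else -1

theorem sg_sq (s : Bool) : sg s * sg s = 1 := by cases s <;> simp [sg]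

theorem sg_not (s : Bool) : sg (!s) = -sg s := by cases s <;> simp [sg]

theorem sg_mul_neg (s : Bool) (a p : ℝ) : sg s * a * (-(sg s * p)) = -(a * p) := by
  have := sg_sq s
  linear_combination (-(a * p)) * this

theorem neg_sg_mul_neg (s : Bool) (a p : ℝ) : -sg s * a * (-(sg s * p)) = a * p := by
  have := sg_sq s
  linear_combination (a * p) * this

theorem neg_sg_neg_sg (s : Bool) (u : ℝ) : -(sg s * (-(sg s * u))) = u := by
  have := sg_sq s
  linear_combination u * this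

theorem neg_sg_pow (s : Bool) (p : ℝ) : (-(sg s * p)) ^ 2 = p ^ 2 := by
  have := sg_sq s
  linear_combination p ^ 2 * this

theorem sg_cases (s : Bool) : sg s = 1 ∨ sg s = -1 := by cases s <;> simp [sg]

/-- indices of the centres `(± a, 0, h)` -/
def i1 : Bool → Fin 5 := fun s => if s then 1 else 3

/-- indices of the centres `(0, ± b, k)` -/
def i2 : Bool → Fin 5 := fun s => if s then 2 else 4

/-- The five centres: the origin, `(± a, 0, h)` and `(0, ± b, k)`. -/
noncomputable def ctr (a b h k : ℝ) : Fin 5 → E3 :=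
  ![!₂[0, 0, 0], !₂[a, 0, h], !₂[0, b, k], !₂[-a, 0, h], !₂[0, -b, k]]

theorem ctr_i1 (a b h k : ℝ) (s : Bool) : ctr a b h k (i1 s) = !₂[sg s * a, 0, h] := by
  cases s <;> simp [ctr, i1, sg]

theorem ctr_i2 (a b h k : ℝ) (s : Bool) : ctr a b h k (i2 s) = !₂[0, sg s * b, k] := by
  cases s <;> simp [ctr, i2, sg]

/-- squared norm in coordinates -/
def r2 (x : E3) : ℝ := x 0 ^ 2 + x 1 ^ 2 + x 2 ^ 2

theorem r2_eq (x : E3) : r2 x = ‖x‖ ^ 2 := by
  rw [EuclideanSpace.norm_sq_eq]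
  simp [Fin.sum_univ_three, r2]

theorem mk0 (u v w : ℝ) : (!₂[u, v, w] : E3) 0 = u := by simp

theorem mk1 (u v w : ℝ) : (!₂[u, v, w] : E3) 1 = v := by simp

theorem mk2 (u v w : ℝ) : (!₂[u, v, w] : E3) 2 = w := by simp

theorem r2_mk (u v w : ℝ) : r2 !₂[u, v, w] = u ^ 2 + v ^ 2 + w ^ 2 := by
  rw [r2, mk0, mk1, mk2]

theorem ext3 (x y : E3) (e0 : x 0 = y 0) (e1 : x 1 = y 1) (e2 : x 2 = y 2) : x = y := by
  ext i; fin_cases i
  · exact e0
  · exact e1
  · exact e2

theorem dist_sq_ctr (x : E3) (u v w : ℝ) :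
    dist x !₂[u, v, w] = Real.sqrt ((x 0 - u) ^ 2 + (x 1 - v) ^ 2 + (x 2 - w) ^ 2) := by
  rw [EuclideanSpace.dist_eq]
  simp [Fin.sum_univ_three, Real.dist_eq, sq_abs]

section param

variable {a b h k : ℝ}

theorem dist0_le (x : E3) : dist x (ctr a b h k 0) ≤ 1 ↔ r2 x ≤ 1 := by
  have : ctr a b h k 0 = !₂[0, 0, 0] := by simp [ctr]
  rw [this, dist_sq_ctr, Real.sqrt_le_one]
  simp [r2]

theorem dist0_eq (x : E3) : dist x (ctr a b h k 0) = 1 ↔ r2 x = 1 := by
  have : ctr a b h k 0 = !₂[0, 0, 0] := by simp [ctr]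
  rw [this, dist_sq_ctr, Real.sqrt_eq_one]
  simp [r2]

theorem dist1_le (h1 : a ^ 2 + h ^ 2 = 1) (x : E3) (s : Bool) :
    dist x (ctr a b h k (i1 s)) ≤ 1 ↔ r2 x ≤ 2 * (sg s * a * x 0 + h * x 2) := by
  rw [ctr_i1, dist_sq_ctr, Real.sqrt_le_one, r2]
  have := sg_sq s
  constructor
  · intro H; nlinarith
  · intro H; nlinarith

theorem dist1_eq (h1 : a ^ 2 + h ^ 2 = 1) (x : E3) (s : Bool) :
    dist x (ctr a b h k (i1 s)) = 1 ↔ r2 x = 2 * (sg s * a * x 0 + h * x 2) := by
  rw [ctr_i1, dist_sq_ctr, Real.sqrt_eq_one, r2]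
  have := sg_sq s
  constructor
  · intro H; nlinarith
  · intro H; nlinarith

theorem dist2_le (h2 : b ^ 2 + k ^ 2 = 1) (x : E3) (s : Bool) :
    dist x (ctr a b h k (i2 s)) ≤ 1 ↔ r2 x ≤ 2 * (sg s * b * x 1 + k * x 2) := by
  rw [ctr_i2, dist_sq_ctr, Real.sqrt_le_one, r2]
  have := sg_sq s
  constructor
  · intro H; nlinarith
  · intro H; nlinarith

theorem dist2_eq (h2 : b ^ 2 + k ^ 2 = 1) (x : E3) (s : Bool) :
    dist x (ctr a b h k (i2 s)) = 1 ↔ r2 x = 2 * (sg s * b * x 1 + k * x 2) := by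
  rw [ctr_i2, dist_sq_ctr, Real.sqrt_eq_one, r2]
  have := sg_sq s
  constructor
  · intro H; nlinarith
  · intro H; nlinarith

end param

/-- The numerical conditions on the parameters. -/
structure Par (a b h k x0 y0 z0 : ℝ) : Prop where
  ha : 0 < a
  hb : 0 < b
  hh : 0 < h
  hk : 0 < k
  hx : 0 < x0
  hy : 0 < y0
  hz : 0 < z0
  e1 : a ^ 2 + h ^ 2 = 1
  e2 : b ^ 2 + k ^ 2 = 1
  e3 : h * z0 - a * x0 = 1 / 2
  e4 : k * z0 - b * y0 = 1 / 2
  e5 : x0 ^ 2 + y0 ^ 2 + z0 ^ 2 = 1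
  n1 : (k - h) ^ 2 < b ^ 2 * (4 * h ^ 2 - 1)
  n2 : (h - k) ^ 2 < a ^ 2 * (4 * k ^ 2 - 1)

namespace Par

variable {a b h k x0 y0 z0 : ℝ} (P : Par a b h k x0 y0 z0)

include P

theorem z0_lt : z0 < 1 := by
  have := P.e5; have := P.hx; have := P.hy; have := P.hz
  nlinarith

theorem hz_gt : 1 / 2 < h * z0 := by
  have := P.e3; have := mul_pos P.ha P.hx
  linarith

theorem kz_gt : 1 / 2 < k * z0 := by
  have := P.e4; have := mul_pos P.hb P.hy
  linarith

theorem h_gt : 1 / 2 < h := by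
  have := P.hz_gt; have := P.z0_lt; have := P.hh
  nlinarith

theorem k_gt : 1 / 2 < k := by
  have := P.kz_gt; have := P.z0_lt; have := P.hk
  nlinarith

theorem mem_body_iff (x : E3) : x ∈ body (ctr a b h k) ↔
    r2 x ≤ 1 ∧ (∀ s, r2 x ≤ 2 * (sg s * a * x 0 + h * x 2)) ∧
      (∀ s, r2 x ≤ 2 * (sg s * b * x 1 + k * x 2)) := by
  simp only [body, mem_iInter, Metric.mem_closedBall]
  constructor
  · intro H
    exact ⟨(dist0_le x).mp (H 0), fun s => (dist1_le P.e1 x s).mp (H (i1 s)),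
      fun s => (dist2_le P.e2 x s).mp (H (i2 s))⟩
  · rintro ⟨H0, H1, H2⟩ i
    fin_cases i
    · exact (dist0_le x).mpr H0
    · exact (dist1_le P.e1 x true).mpr (H1 true)
    · exact (dist2_le P.e2 x true).mpr (H2 true)
    · exact (dist1_le P.e1 x false).mpr (H1 false)
    · exact (dist2_le P.e2 x false).mpr (H2 false)

theorem mem0 (x : E3) : 0 ∈ spheresThrough (ctr a b h k) x ↔ r2 x = 1 := by
  rw [mem_spheresThrough, Metric.mem_sphere, dist0_eq]

theorem mem1 (x : E3) (s : Bool) : i1 s ∈ spheresThrough (ctr a b h k) x ↔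
    r2 x = 2 * (sg s * a * x 0 + h * x 2) := by
  rw [mem_spheresThrough, Metric.mem_sphere, dist1_eq P.e1]

theorem mem2 (x : E3) (s : Bool) : i2 s ∈ spheresThrough (ctr a b h k) x ↔
    r2 x = 2 * (sg s * b * x 1 + k * x 2) := by
  rw [mem_spheresThrough, Metric.mem_sphere, dist2_eq P.e2]

theorem r2_nonneg (x : E3) : 0 ≤ r2 x := by unfold r2; positivity

theorem eq_zero_of_r2 (x : E3) (hx : r2 x = 0) : x = 0 := by
  rw [r2_eq] at hx
  simpa using hx

/-- the apex is the only point of the body on both spheres `i1` -/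
theorem apex1 (x : E3) (hx : x ∈ body (ctr a b h k))
    (ht : i1 true ∈ spheresThrough (ctr a b h k) x)
    (hf : i1 false ∈ spheresThrough (ctr a b h k) x) : x = 0 := by
  rw [P.mem_body_iff] at hx
  rw [P.mem1] at ht hf
  obtain ⟨h0, -, h2⟩ := hx
  have h2t := h2 true
  have h2f := h2 false
  simp only [sg, if_true, Bool.false_eq_true, if_false] at ht hf h2t h2f
  have ha := P.ha; have hb := P.hb; have hh := P.hh; have hk := P.hk
  have hX : x 0 = 0 := by
    have : a * x 0 = 0 := by linarith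
    rcases mul_eq_zero.mp this with h | h
    · linarith
    · exact h
  apply P.eq_zero_of_r2
  have hr := P.r2_nonneg x
  by_contra hne
  have hr' : 0 < r2 x := lt_of_le_of_ne hr (Ne.symm hne)
  have hZ : 0 < x 2 := by
    rw [hX] at ht
    by_contra hneg
    push Not at hneg
    nlinarith
  have e : r2 x = 2 * h * x 2 := by rw [ht, hX]; ring
  have e' : x 1 ^ 2 = 2 * h * x 2 - x 2 ^ 2 := by
    have : r2 x = x 0 ^ 2 + x 1 ^ 2 + x 2 ^ 2 := rfl
    rw [hX] at this
    linarith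
  -- b |Y| ≤ (k - h) Z
  have hb1 : b * x 1 ≤ (k - h) * x 2 := by linarith
  have hb2 : -(b * x 1) ≤ (k - h) * x 2 := by linarith
  have hsq : (b * x 1) ^ 2 ≤ ((k - h) * x 2) ^ 2 := by
    apply sq_le_sq'
    · linarith
    · exact hb1
  have hsq2 : b ^ 2 * (2 * h * x 2 - x 2 ^ 2) ≤ (k - h) ^ 2 * x 2 ^ 2 := by
    rw [← e']; nlinarith
  have hsq3 : b ^ 2 * (2 * h - x 2) ≤ (k - h) ^ 2 * x 2 := by
    have : x 2 * (b ^ 2 * (2 * h - x 2)) ≤ x 2 * ((k - h) ^ 2 * x 2) := by nlinarith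
    exact le_of_mul_le_mul_left this hZ
  have h5 : 2 * h * x 2 ≤ 1 := by linarith
  have h6 : b ^ 2 * (4 * h ^ 2 - 2 * h * x 2) ≤ (k - h) ^ 2 * (2 * h * x 2) := by
    have : 2 * h * (b ^ 2 * (2 * h - x 2)) ≤ 2 * h * ((k - h) ^ 2 * x 2) :=
      mul_le_mul_of_nonneg_left hsq3 (by positivity)
    nlinarith
  have h7 : (k - h) ^ 2 * (2 * h * x 2) ≤ (k - h) ^ 2 := by
    have : 0 ≤ (k - h) ^ 2 := sq_nonneg _
    nlinarith
  have h8 : b ^ 2 * (4 * h ^ 2 - 1) ≤ b ^ 2 * (4 * h ^ 2 - 2 * h * x 2) := by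
    have : 0 ≤ b ^ 2 := sq_nonneg _
    nlinarith
  linarith [P.n1]

theorem apex2 (x : E3) (hx : x ∈ body (ctr a b h k))
    (ht : i2 true ∈ spheresThrough (ctr a b h k) x)
    (hf : i2 false ∈ spheresThrough (ctr a b h k) x) : x = 0 := by
  rw [P.mem_body_iff] at hx
  rw [P.mem2] at ht hf
  obtain ⟨h0, h2, -⟩ := hx
  have h2t := h2 true
  have h2f := h2 false
  simp only [sg, if_true, Bool.false_eq_true, if_false] at ht hf h2t h2f
  have ha := P.ha; have hb := P.hb; have hh := P.hh; have hk := P.hk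
  have hX : x 1 = 0 := by
    have : b * x 1 = 0 := by linarith
    rcases mul_eq_zero.mp this with h | h
    · linarith
    · exact h
  apply P.eq_zero_of_r2
  have hr := P.r2_nonneg x
  by_contra hne
  have hr' : 0 < r2 x := lt_of_le_of_ne hr (Ne.symm hne)
  have hZ : 0 < x 2 := by
    rw [hX] at ht
    by_contra hneg
    push Not at hneg
    nlinarith
  have e : r2 x = 2 * k * x 2 := by rw [ht, hX]; ring
  have e' : x 0 ^ 2 = 2 * k * x 2 - x 2 ^ 2 := by
    have : r2 x = x 0 ^ 2 + x 1 ^ 2 + x 2 ^ 2 := rfl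
    rw [hX] at this
    linarith
  have hb1 : a * x 0 ≤ (h - k) * x 2 := by linarith
  have hb2 : -(a * x 0) ≤ (h - k) * x 2 := by linarith
  have hsq : (a * x 0) ^ 2 ≤ ((h - k) * x 2) ^ 2 := by
    apply sq_le_sq'
    · linarith
    · exact hb1
  have hsq2 : a ^ 2 * (2 * k * x 2 - x 2 ^ 2) ≤ (h - k) ^ 2 * x 2 ^ 2 := by
    rw [← e']; nlinarith
  have hsq3 : a ^ 2 * (2 * k - x 2) ≤ (h - k) ^ 2 * x 2 := by
    have : x 2 * (a ^ 2 * (2 * k - x 2)) ≤ x 2 * ((h - k) ^ 2 * x 2) := by nlinarith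
    exact le_of_mul_le_mul_left this hZ
  have h5 : 2 * k * x 2 ≤ 1 := by linarith
  have h6 : a ^ 2 * (4 * k ^ 2 - 2 * k * x 2) ≤ (h - k) ^ 2 * (2 * k * x 2) := by
    have : 2 * k * (a ^ 2 * (2 * k - x 2)) ≤ 2 * k * ((h - k) ^ 2 * x 2) :=
      mul_le_mul_of_nonneg_left hsq3 (by positivity)
    nlinarith
  have h7 : (h - k) ^ 2 * (2 * k * x 2) ≤ (h - k) ^ 2 := by
    have : 0 ≤ (h - k) ^ 2 := sq_nonneg _
    nlinarith
  have h8 : a ^ 2 * (4 * k ^ 2 - 1) ≤ a ^ 2 * (4 * k ^ 2 - 2 * k * x 2) := by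
    have : 0 ≤ a ^ 2 := sq_nonneg _
    nlinarith
  linarith [P.n2]

theorem zero_mem : (0 : E3) ∈ body (ctr a b h k) := by
  rw [P.mem_body_iff]
  simp [r2]

theorem supp_zero : spheresThrough (ctr a b h k) (0 : E3) = {1, 2, 3, 4} := by
  have h0 : (0 : Fin 5) ∉ spheresThrough (ctr a b h k) (0 : E3) := by
    rw [P.mem0]; simp [r2]
  have h1 : ∀ s, i1 s ∈ spheresThrough (ctr a b h k) (0 : E3) := fun s => by
    rw [P.mem1]; simp [r2]
  have h2 : ∀ s, i2 s ∈ spheresThrough (ctr a b h k) (0 : E3) := fun s => by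
    rw [P.mem2]; simp [r2]
  have h1t : (1 : Fin 5) ∈ spheresThrough (ctr a b h k) (0 : E3) := h1 true
  have h1f : (3 : Fin 5) ∈ spheresThrough (ctr a b h k) (0 : E3) := h1 false
  have h2t : (2 : Fin 5) ∈ spheresThrough (ctr a b h k) (0 : E3) := h2 true
  have h2f : (4 : Fin 5) ∈ spheresThrough (ctr a b h k) (0 : E3) := h2 false
  ext i
  fin_cases i
  · simpa using h0
  · simpa using h1t
  · simpa using h2t
  · simpa using h1f
  · simpa using h2f

end Par

/-- The family of index sets of the square pyramid. -/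
def LL : Finset (Finset (Fin 5)) :=
  Finset.univ.filter fun I => (¬ (1 ∈ I ∧ 3 ∈ I) ∧ ¬ (2 ∈ I ∧ 4 ∈ I)) ∨ I = {1, 2, 3, 4} ∨
    I = Finset.univ

theorem LL_sing : ∀ i, ({i} : Finset (Fin 5)) ∈ LL := by decide

theorem LL_inter : ∀ I ∈ LL, ∀ J ∈ LL, I ∩ J ∈ LL := by decide +kernel

theorem LL_pairs : ∀ I ∈ LL, I.card = 2 → (∃ s, I = {0, i1 s}) ∨ (∃ s, I = {0, i2 s}) ∨
    (∃ s t, I = {i1 s, i2 t}) := by decide +kernel

theorem LL_big : ∀ I ∈ LL, 3 ≤ I.card → I = {1, 2, 3, 4} ∨ I = Finset.univ ∨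
    (∃ s t, I = {0, i1 s, i2 t}) := by decide +kernel

theorem LL_sup01 : ∀ s, ∀ I ∈ LL, {0, i1 s} ⊆ I → I = {0, i1 s} ∨ I = Finset.univ ∨
    (∃ t, I = {0, i1 s, i2 t}) := by decide +kernel

theorem LL_sup02 : ∀ s, ∀ I ∈ LL, {0, i2 s} ⊆ I → I = {0, i2 s} ∨ I = Finset.univ ∨
    (∃ t, I = {0, i1 t, i2 s}) := by decide +kernel

theorem LL_sup12 : ∀ s t, ∀ I ∈ LL, {i1 s, i2 t} ⊆ I → I = {i1 s, i2 t} ∨ I = Finset.univ ∨
    I = {0, i1 s, i2 t} ∨ I = {1, 2, 3, 4} := by decide +kernel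

namespace Par

variable {a b h k x0 y0 z0 : ℝ} (P : Par a b h k x0 y0 z0)

include P

theorem hA (x : E3) (hx : x ∈ body (ctr a b h k)) :
    spheresThrough (ctr a b h k) x ∈ LL ∧ spheresThrough (ctr a b h k) x ≠ Finset.univ := by
  constructor
  · simp only [LL, Finset.mem_filter, Finset.mem_univ, true_and]
    by_cases hx0 : x = 0
    · right; left; rw [hx0]; exact P.supp_zero
    · left
      exact ⟨fun hh => hx0 (P.apex1 x hx hh.1 hh.2), fun hh => hx0 (P.apex2 x hx hh.1 hh.2)⟩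
  · intro hu
    have h0 : (0 : Fin 5) ∈ spheresThrough (ctr a b h k) x := by rw [hu]; exact Finset.mem_univ _
    have h1 : i1 true ∈ spheresThrough (ctr a b h k) x := by rw [hu]; exact Finset.mem_univ _
    have h2 : i1 false ∈ spheresThrough (ctr a b h k) x := by rw [hu]; exact Finset.mem_univ _
    have := P.apex1 x hx h1 h2
    rw [P.mem0, this] at h0
    simp [r2] at h0

/-- points with a prescribed support -/
theorem supp_eq (x : E3) (I : Finset (Fin 5)) (h0 : r2 x = 1 ↔ 0 ∈ I)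
    (h1 : ∀ s, r2 x = 2 * (sg s * a * x 0 + h * x 2) ↔ i1 s ∈ I)
    (h2 : ∀ s, r2 x = 2 * (sg s * b * x 1 + k * x 2) ↔ i2 s ∈ I) :
    spheresThrough (ctr a b h k) x = I := by
  have h0' := P.mem0 x
  have h1' := fun s => P.mem1 x s
  have h2' := fun s => P.mem2 x s
  have g0 : (0 : Fin 5) ∈ spheresThrough (ctr a b h k) x ↔ 0 ∈ I := h0'.trans h0
  have g1 : (1 : Fin 5) ∈ spheresThrough (ctr a b h k) x ↔ 1 ∈ I := (h1' true).trans (h1 true)
  have g3 : (3 : Fin 5) ∈ spheresThrough (ctr a b h k) x ↔ 3 ∈ I := (h1' false).trans (h1 false)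
  have g2 : (2 : Fin 5) ∈ spheresThrough (ctr a b h k) x ↔ 2 ∈ I := (h2' true).trans (h2 true)
  have g4 : (4 : Fin 5) ∈ spheresThrough (ctr a b h k) x ↔ 4 ∈ I := (h2' false).trans (h2 false)
  ext i
  fin_cases i
  · exact g0
  · exact g1
  · exact g2
  · exact g3
  · exact g4

/-- inversion: a point `Y = (u, v, t)` with `|Y| ≥ 1` in the cone gives a point of the body -/
theorem inv_mem (u v t : ℝ) (I : Finset (Fin 5)) (hq : 1 ≤ u ^ 2 + v ^ 2 + t ^ 2)
    (H1 : ∀ s, 1 ≤ 2 * (sg s * a * u + h * t)) (H2 : ∀ s, 1 ≤ 2 * (sg s * b * v + k * t))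
    (h0 : u ^ 2 + v ^ 2 + t ^ 2 = 1 ↔ 0 ∈ I)
    (h1 : ∀ s, 1 = 2 * (sg s * a * u + h * t) ↔ i1 s ∈ I)
    (h2 : ∀ s, 1 = 2 * (sg s * b * v + k * t) ↔ i2 s ∈ I) :
    !₂[u / (u ^ 2 + v ^ 2 + t ^ 2), v / (u ^ 2 + v ^ 2 + t ^ 2), t / (u ^ 2 + v ^ 2 + t ^ 2)]
      ∈ Ex (ctr a b h k) I := by
  set q := u ^ 2 + v ^ 2 + t ^ 2 with hqd
  have hq0 : 0 < q := by linarith
  have hr : r2 (!₂[u / q, v / q, t / q] : E3) = 1 / q := by
    rw [r2_mk, div_pow, div_pow, div_pow, ← add_div, ← add_div, ← hqd]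
    field_simp
  have c0 := mk0 (u / q) (v / q) (t / q)
  have c1 := mk1 (u / q) (v / q) (t / q)
  have c2 := mk2 (u / q) (v / q) (t / q)
  have E1 : ∀ s, 2 * (sg s * a * (u / q) + h * (t / q)) = 2 * (sg s * a * u + h * t) / q := by
    intro s; field_simp
  have E2 : ∀ s, 2 * (sg s * b * (v / q) + k * (t / q)) = 2 * (sg s * b * v + k * t) / q := by
    intro s; field_simp
  constructor
  · rw [P.mem_body_iff, hr, c0, c1, c2]
    refine ⟨?_, fun s => ?_, fun s => ?_⟩
    · rw [div_le_one hq0]; exact hq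
    · rw [E1]; gcongr; exact H1 s
    · rw [E2]; gcongr; exact H2 s
  · apply P.supp_eq
    · rw [hr, ← h0, div_eq_one_iff_eq hq0.ne']
      exact eq_comm
    · intro s
      rw [hr, c0, c2, E1, ← h1 s]
      constructor
      · intro H
        have := congrArg (fun z => z * q) H
        simpa [hq0.ne'] using this
      · intro H
        rw [← H]
    · intro s
      rw [hr, c1, c2, E2, ← h2 s]
      constructor
      · intro H
        have := congrArg (fun z => z * q) H
        simpa [hq0.ne'] using this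
      · intro H
        rw [← H]

/-- first half of the base-edge parametrisation -/
theorem psi1 (y : ℝ) (hy : y ^ 2 ≤ y0 ^ 2) :
    0 ≤ 3 / 4 - y ^ 2 ∧ x0 ≤ h * Real.sqrt (3 / 4 - y ^ 2) - a / 2 ∧
      z0 ≤ h / 2 + a * Real.sqrt (3 / 4 - y ^ 2) ∧
      (y ^ 2 < y0 ^ 2 → z0 < h / 2 + a * Real.sqrt (3 / 4 - y ^ 2)) ∧
      (y ^ 2 = y0 ^ 2 → h * Real.sqrt (3 / 4 - y ^ 2) - a / 2 = x0 ∧
        h / 2 + a * Real.sqrt (3 / 4 - y ^ 2) = z0) ∧
      (h * Real.sqrt (3 / 4 - y ^ 2) - a / 2) ^ 2 + y ^ 2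
        + (h / 2 + a * Real.sqrt (3 / 4 - y ^ 2)) ^ 2 = 1 := by
  have ha := P.ha; have hb := P.hb; have hh := P.hh; have hk := P.hk
  have hx := P.hx; have hyp := P.hy; have hz := P.hz
  have e1 := P.e1; have e3 := P.e3; have e5 := P.e5
  set s0 := h * x0 + a * z0 with hs0
  have s0pos : 0 < s0 := by positivity
  have ex : h * s0 - a / 2 = x0 := by
    rw [hs0, ← mul_one_div a 2, ← e3]; nlinarith
  have ez : h / 2 + a * s0 = z0 := by
    rw [hs0, ← mul_one_div h 2, ← e3]; nlinarith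
  have hsq : s0 ^ 2 = 3 / 4 - y0 ^ 2 := by
    have : s0 ^ 2 + (h * z0 - a * x0) ^ 2 = (x0 ^ 2 + z0 ^ 2) * (a ^ 2 + h ^ 2) := by
      rw [hs0]; ring
    rw [e3, e1] at this
    linarith
  have hnn : 0 ≤ 3 / 4 - y ^ 2 := by
    have : 0 ≤ s0 ^ 2 := sq_nonneg _
    linarith
  set s := Real.sqrt (3 / 4 - y ^ 2) with hs
  have hs2 : s ^ 2 = 3 / 4 - y ^ 2 := Real.sq_sqrt hnn
  have hsn : 0 ≤ s := Real.sqrt_nonneg _
  have hle : s0 ≤ s := by
    apply Real.le_sqrt_of_sq_le; linarith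
  refine ⟨hnn, ?_, ?_, ?_, ?_, ?_⟩
  · rw [← ex]; gcongr
  · rw [← ez]; gcongr
  · intro hlt
    have : s0 < s := by
      apply Real.lt_sqrt_of_sq_lt; linarith
    rw [← ez]; gcongr
  · intro heq
    have : s = s0 := by
      rw [hs, heq, ← hsq, Real.sqrt_sq s0pos.le]
    rw [this]
    exact ⟨ex, ez⟩
  · have : (h * s - a / 2) ^ 2 + y ^ 2 + (h / 2 + a * s) ^ 2
        = (a ^ 2 + h ^ 2) * (s ^ 2 + 1 / 4) + y ^ 2 := by ring
    rw [this, e1, hs2]; ring

theorem psi2 (y : ℝ) (hy : y ^ 2 ≤ x0 ^ 2) :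
    0 ≤ 3 / 4 - y ^ 2 ∧ y0 ≤ k * Real.sqrt (3 / 4 - y ^ 2) - b / 2 ∧
      z0 ≤ k / 2 + b * Real.sqrt (3 / 4 - y ^ 2) ∧
      (y ^ 2 < x0 ^ 2 → z0 < k / 2 + b * Real.sqrt (3 / 4 - y ^ 2)) ∧
      (y ^ 2 = x0 ^ 2 → k * Real.sqrt (3 / 4 - y ^ 2) - b / 2 = y0 ∧
        k / 2 + b * Real.sqrt (3 / 4 - y ^ 2) = z0) ∧
      (k * Real.sqrt (3 / 4 - y ^ 2) - b / 2) ^ 2 + y ^ 2
        + (k / 2 + b * Real.sqrt (3 / 4 - y ^ 2)) ^ 2 = 1 := by
  have P' : Par b a k h y0 x0 z0 :=
    ⟨P.hb, P.ha, P.hk, P.hh, P.hy, P.hx, P.hz, P.e2, P.e1, P.e4, P.e3,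
      by have := P.e5; linarith, P.n2, P.n1⟩
  exact P'.psi1 y hy

theorem choose1 (t : ℝ) (ht : 1 / 2 < h * t) (I : Finset (Fin 5)) (hI : ¬ (1 ∈ I ∧ 3 ∈ I)) :
    ∃ u : ℝ, (∀ s, 1 ≤ 2 * (sg s * a * u + h * t)) ∧
      (∀ s, 1 = 2 * (sg s * a * u + h * t) ↔ i1 s ∈ I) ∧
      ((1 ∈ I ∨ 3 ∈ I) → u ^ 2 = ((h * t - 1 / 2) / a) ^ 2) ∧ (¬ (1 ∈ I ∨ 3 ∈ I) → u = 0) := by
  have ha := P.ha
  have hp : 0 < (h * t - 1 / 2) / a := div_pos (by linarith) ha
  have hap : a * ((h * t - 1 / 2) / a) = h * t - 1 / 2 := by field_simp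
  set p := (h * t - 1 / 2) / a
  have hap' : 0 < a * p := mul_pos ha hp
  by_cases h1 : 1 ∈ I
  · have h3 : 3 ∉ I := fun h => hI ⟨h1, h⟩
    refine ⟨-p, ?_, ?_, ?_, ?_⟩
    · intro s; cases s <;> simp [sg] <;> linarith
    · intro s
      cases s
      · simp only [i1, sg, Bool.false_eq_true, if_false, h3, iff_false]
        intro h; linarith
      · simp only [i1, sg, if_true, h1, iff_true]
        linarith
    · intro _; ring
    · intro h; exact absurd (Or.inl h1) h
  · by_cases h3 : 3 ∈ I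
    · refine ⟨p, ?_, ?_, ?_, ?_⟩
      · intro s; cases s <;> simp [sg] <;> linarith
      · intro s
        cases s
        · simp only [i1, sg, Bool.false_eq_true, if_false, h3, iff_true]
          linarith
        · simp only [i1, sg, if_true, h1, iff_false]
          intro h; linarith
      · intro _; ring
      · intro h; exact absurd (Or.inr h3) h
    · refine ⟨0, ?_, ?_, ?_, ?_⟩
      · intro s; simp; linarith
      · intro s
        cases s
        · simp only [i1, sg, Bool.false_eq_true, if_false, h3, iff_false]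
          intro h; linarith
        · simp only [i1, sg, if_true, h1, iff_false]
          intro h; linarith
      · intro h; rcases h with h | h <;> contradiction
      · intro _; rfl

theorem choose2 (t : ℝ) (ht : 1 / 2 < k * t) (I : Finset (Fin 5)) (hI : ¬ (2 ∈ I ∧ 4 ∈ I)) :
    ∃ v : ℝ, (∀ s, 1 ≤ 2 * (sg s * b * v + k * t)) ∧
      (∀ s, 1 = 2 * (sg s * b * v + k * t) ↔ i2 s ∈ I) ∧
      ((2 ∈ I ∨ 4 ∈ I) → v ^ 2 = ((k * t - 1 / 2) / b) ^ 2) ∧ (¬ (2 ∈ I ∨ 4 ∈ I) → v = 0) := by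
  have hb := P.hb
  have hp : 0 < (k * t - 1 / 2) / b := div_pos (by linarith) hb
  have hap : b * ((k * t - 1 / 2) / b) = k * t - 1 / 2 := by field_simp
  set p := (k * t - 1 / 2) / b
  have hap' : 0 < b * p := mul_pos hb hp
  by_cases h1 : 2 ∈ I
  · have h3 : 4 ∉ I := fun h => hI ⟨h1, h⟩
    refine ⟨-p, ?_, ?_, ?_, ?_⟩
    · intro s; cases s <;> simp [sg] <;> linarith
    · intro s
      cases s
      · simp only [i2, sg, Bool.false_eq_true, if_false, h3, iff_false]
        intro h; linarith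
      · simp only [i2, sg, if_true, h1, iff_true]
        linarith
    · intro _; ring
    · intro h; exact absurd (Or.inl h1) h
  · by_cases h3 : 4 ∈ I
    · refine ⟨p, ?_, ?_, ?_, ?_⟩
      · intro s; cases s <;> simp [sg] <;> linarith
      · intro s
        cases s
        · simp only [i2, sg, Bool.false_eq_true, if_false, h3, iff_true]
          linarith
        · simp only [i2, sg, if_true, h1, iff_false]
          intro h; linarith
      · intro _; ring
      · intro h; exact absurd (Or.inr h3) h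
    · refine ⟨0, ?_, ?_, ?_, ?_⟩
      · intro s; simp; linarith
      · intro s
        cases s
        · simp only [i2, sg, Bool.false_eq_true, if_false, h3, iff_false]
          intro h; linarith
        · simp only [i2, sg, if_true, h1, iff_false]
          intro h; linarith
      · intro h; rcases h with h | h <;> contradiction
      · intro _; rfl

theorem hB (I : Finset (Fin 5)) (hI : I ∈ LL) (hu : I ≠ Finset.univ) :
    (Ex (ctr a b h k) I).Nonempty := by
  have hh := P.h_gt; have hk := P.k_gt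
  have ha := P.ha; have hb := P.hb; have hx := P.hx; have hyp := P.hy; have hz := P.hz
  simp only [LL, Finset.mem_filter, Finset.mem_univ, true_and] at hI
  rcases hI with ⟨hI1, hI2⟩ | hI | hI
  · by_cases h0 : 0 ∈ I
    · -- need a height t with |Y| = 1
      have key : ∃ t : ℝ, 1 / 2 < h * t ∧ 1 / 2 < k * t ∧
          (if (1 ∈ I ∨ 3 ∈ I) then ((h * t - 1 / 2) / a) ^ 2 else 0)
          + (if (2 ∈ I ∨ 4 ∈ I) then ((k * t - 1 / 2) / b) ^ 2 else 0) + t ^ 2 = 1 := by
        by_cases c1 : (1 ∈ I ∨ 3 ∈ I)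
        · by_cases c2 : (2 ∈ I ∨ 4 ∈ I)
          · refine ⟨z0, P.hz_gt, P.kz_gt, ?_⟩
            rw [if_pos c1, if_pos c2]
            have e3 : (h * z0 - 1 / 2) / a = x0 := by
              rw [div_eq_iff ha.ne']; linarith [P.e3]
            have e4 : (k * z0 - 1 / 2) / b = y0 := by
              rw [div_eq_iff hb.ne']; linarith [P.e4]
            rw [e3, e4]; exact P.e5
          · obtain ⟨-, p1, p2, p3, -, p5⟩ := P.psi1 0 (by nlinarith)
            have p3 := p3 (by nlinarith)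
            set s := Real.sqrt (3 / 4 - 0 ^ 2)
            refine ⟨h / 2 + a * s, ?_, ?_, ?_⟩
            · have := P.hz_gt; have := P.hh; nlinarith
            · have := P.kz_gt; have := P.hk; nlinarith
            · rw [if_pos c1, if_neg c2]
              have e1 := P.e1
              have : (h * (h / 2 + a * s) - 1 / 2) / a = h * s - a / 2 := by
                rw [div_eq_iff ha.ne']; nlinarith
              rw [this]; linarith
        · by_cases c2 : (2 ∈ I ∨ 4 ∈ I)
          · obtain ⟨-, p1, p2, p3, -, p5⟩ := P.psi2 0 (by nlinarith)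
            have p3 := p3 (by nlinarith)
            set s := Real.sqrt (3 / 4 - 0 ^ 2)
            refine ⟨k / 2 + b * s, ?_, ?_, ?_⟩
            · have := P.hz_gt; have := P.hh; nlinarith
            · have := P.kz_gt; have := P.hk; nlinarith
            · rw [if_neg c1, if_pos c2]
              have e1 := P.e2
              have : (k * (k / 2 + b * s) - 1 / 2) / b = k * s - b / 2 := by
                rw [div_eq_iff hb.ne']; nlinarith
              rw [this]; linarith
          · refine ⟨1, by linarith, by linarith, ?_⟩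
            rw [if_neg c1, if_neg c2]; norm_num
      obtain ⟨t, t1, t2, t3⟩ := key
      obtain ⟨u, u1, u2, u3, u4⟩ := P.choose1 t t1 I hI1
      obtain ⟨v, v1, v2, v3, v4⟩ := P.choose2 t t2 I hI2
      have hu2 : u ^ 2 = if (1 ∈ I ∨ 3 ∈ I) then ((h * t - 1 / 2) / a) ^ 2 else 0 := by
        split_ifs with c
        · exact u3 c
        · rw [u4 c]; norm_num
      have hv2 : v ^ 2 = if (2 ∈ I ∨ 4 ∈ I) then ((k * t - 1 / 2) / b) ^ 2 else 0 := by
        split_ifs with c
        · exact v3 c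
        · rw [v4 c]; norm_num
      have hq : u ^ 2 + v ^ 2 + t ^ 2 = 1 := by rw [hu2, hv2]; exact t3
      exact ⟨_, P.inv_mem u v t I hq.ge u1 v1 (by simp [hq, h0]) u2 v2⟩
    · obtain ⟨u, u1, u2, -, -⟩ := P.choose1 2 (by linarith) I hI1
      obtain ⟨v, v1, v2, -, -⟩ := P.choose2 2 (by linarith) I hI2
      have hq : 1 < u ^ 2 + v ^ 2 + 2 ^ 2 := by nlinarith [sq_nonneg u, sq_nonneg v]
      exact ⟨_, P.inv_mem u v 2 I hq.le u1 v1 (by simp [h0]; linarith) u2 v2⟩
  · exact ⟨0, P.zero_mem, by rw [P.supp_zero, hI]⟩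
  · exact absurd hI hu

theorem base_unique (p q z : ℝ) (hp0 : 0 ≤ p) (hq0 : 0 ≤ q) (hz : 0 < z)
    (hpe : h * z - a * p = 1 / 2) (hqe : k * z - b * q = 1 / 2) (hr : p ^ 2 + q ^ 2 + z ^ 2 = 1) :
    p = x0 ∧ q = y0 ∧ z = z0 := by
  have hzz : z = z0 := by
    rcases lt_trichotomy z z0 with hlt | heq | hgt
    · exfalso
      have g1 : h * z < h * z0 := mul_lt_mul_of_pos_left hlt P.hh
      have g2 : k * z < k * z0 := mul_lt_mul_of_pos_left hlt P.hk
      have h3' : p < x0 := lt_of_mul_lt_mul_left (by linarith [P.e3] : a * p < a * x0) P.ha.le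
      have h4' : q < y0 := lt_of_mul_lt_mul_left (by linarith [P.e4] : b * q < b * y0) P.hb.le
      have s1 : p ^ 2 < x0 ^ 2 := by gcongr
      have s2 : q ^ 2 < y0 ^ 2 := by gcongr
      have s3 : z ^ 2 < z0 ^ 2 := by gcongr
      linarith [P.e5]
    · exact heq
    · exfalso
      have hx := P.hx; have hy := P.hy; have hz0 := P.hz
      have g1 : h * z0 < h * z := mul_lt_mul_of_pos_left hgt P.hh
      have g2 : k * z0 < k * z := mul_lt_mul_of_pos_left hgt P.hk
      have h3' : x0 < p := lt_of_mul_lt_mul_left (by linarith [P.e3] : a * x0 < a * p) P.ha.le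
      have h4' : y0 < q := lt_of_mul_lt_mul_left (by linarith [P.e4] : b * y0 < b * q) P.hb.le
      have s1 : x0 ^ 2 < p ^ 2 := by gcongr
      have s2 : y0 ^ 2 < q ^ 2 := by gcongr
      have s3 : z0 ^ 2 < z ^ 2 := by gcongr
      linarith [P.e5]
  refine ⟨?_, ?_, hzz⟩
  · have : a * p = a * x0 := by rw [hzz] at hpe; linarith [P.e3]
    exact mul_left_cancel₀ P.ha.ne' this
  · have : b * q = b * y0 := by rw [hzz] at hqe; linarith [P.e4]
    exact mul_left_cancel₀ P.hb.ne' this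

/-- height is positive off the apex -/
theorem z_pos (p z : ℝ) (hp0 : 0 ≤ p) (hpe : h * z - a * p = 1 / 2) : 0 < z := by
  have h1 : 0 ≤ a * p := mul_nonneg P.ha.le hp0
  have h2 : 0 < h * z := by linarith
  exact (mul_pos_iff_of_pos_left P.hh).mp h2

theorem nonneg1 (p z : ℝ) (hpe : h * z - a * p = 1 / 2) (H : 1 ≤ 2 * (a * p + h * z)) :
    0 ≤ p := by
  have : 0 ≤ a * p := by linarith
  exact nonneg_of_mul_nonneg_right this P.ha

theorem nonneg2 (q z : ℝ) (hpe : k * z - b * q = 1 / 2) (H : 1 ≤ 2 * (b * q + k * z)) :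
    0 ≤ q := by
  have : 0 ≤ b * q := by linarith
  exact nonneg_of_mul_nonneg_right this P.hb

/-- the base vertices -/
theorem wpt (s t : Bool) (x : E3) (hx : x ∈ body (ctr a b h k))
    (h0 : 0 ∈ spheresThrough (ctr a b h k) x) (h1 : i1 s ∈ spheresThrough (ctr a b h k) x)
    (h2 : i2 t ∈ spheresThrough (ctr a b h k) x) :
    x = !₂[-(sg s * x0), -(sg t * y0), z0] := by
  rw [P.mem_body_iff] at hx
  rw [P.mem0] at h0
  rw [P.mem1] at h1
  rw [P.mem2] at h2
  obtain ⟨-, H1, H2⟩ := hx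
  have H1 := H1 (!s)
  have H2 := H2 (!t)
  rw [sg_not] at H1 H2
  rw [h0] at h1 h2 H1 H2
  obtain ⟨p, hp⟩ : ∃ p, x 0 = -(sg s * p) := ⟨-(sg s * x 0), (neg_sg_neg_sg s _).symm⟩
  obtain ⟨q, hq⟩ : ∃ q, x 1 = -(sg t * q) := ⟨-(sg t * x 1), (neg_sg_neg_sg t _).symm⟩
  rw [hp, sg_mul_neg] at h1
  rw [hq, sg_mul_neg] at h2
  rw [hp, neg_sg_mul_neg] at H1
  rw [hq, neg_sg_mul_neg] at H2
  rw [r2, hp, hq, neg_sg_pow, neg_sg_pow] at h0
  have hpe : h * x 2 - a * p = 1 / 2 := by linarith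
  have hqe : k * x 2 - b * q = 1 / 2 := by linarith
  have hp0 := P.nonneg1 p _ hpe H1
  have hq0 := P.nonneg2 q _ hqe H2
  obtain ⟨r1, r2', r3⟩ := P.base_unique p q (x 2) hp0 hq0 (P.z_pos p _ hp0 hpe) hpe hqe h0
  apply ext3
  · rw [mk0, hp, r1]
  · rw [mk1, hq, r2']
  · rw [mk2, r3]

theorem hD (I : Finset (Fin 5)) (hI : I ∈ LL) (hc : 3 ≤ I.card) :
    (G (ctr a b h k) I).Subsingleton := by
  rintro x ⟨hx, hxI⟩ y ⟨hy, hyI⟩
  rcases LL_big I hI hc with rfl | rfl | ⟨s, t, rfl⟩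
  · have e1 := P.apex1 x hx (hxI (by decide)) (hxI (by decide))
    have e2 := P.apex1 y hy (hyI (by decide)) (hyI (by decide))
    rw [e1, e2]
  · exact absurd (Finset.univ_subset_iff.mp hxI) (P.hA x hx).2
  · have e1 := P.wpt s t x hx (hxI (by simp)) (hxI (by simp)) (hxI (by simp))
    have e2 := P.wpt s t y hy (hyI (by simp)) (hyI (by simp)) (hyI (by simp))
    rw [e1, e2]

/-- parametrisation of the base edge on the spheres `0` and `i1 s` -/
noncomputable def psiA (a h : ℝ) (s : Bool) (y : ℝ) : E3 :=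
  !₂[-(sg s * (h * Real.sqrt (3 / 4 - y ^ 2) - a / 2)), y, h / 2 + a * Real.sqrt (3 / 4 - y ^ 2)]

/-- parametrisation of the base edge on the spheres `0` and `i2 s` -/
noncomputable def psiB (b k : ℝ) (s : Bool) (y : ℝ) : E3 :=
  !₂[y, -(sg s * (k * Real.sqrt (3 / 4 - y ^ 2) - b / 2)), k / 2 + b * Real.sqrt (3 / 4 - y ^ 2)]

omit P in
theorem psiA_cont (s : Bool) : Continuous (psiA a h s) := by
  unfold psiA
  fun_prop

omit P in
theorem psiB_cont (s : Bool) : Continuous (psiB b k s) := by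
  unfold psiB
  fun_prop

theorem on_line (p z : ℝ) (hpe : h * z - a * p = 1 / 2) (hp0 : 0 ≤ p) (y : ℝ)
    (hr : p ^ 2 + y ^ 2 + z ^ 2 = 1) :
    h * Real.sqrt (3 / 4 - y ^ 2) - a / 2 = p ∧ h / 2 + a * Real.sqrt (3 / 4 - y ^ 2) = z := by
  have hz := P.z_pos p z hp0 hpe
  have e1 := P.e1
  set σ := h * p + a * z with hσ
  have hσ0 : 0 ≤ σ := by
    have := mul_nonneg P.hh.le hp0
    have := mul_pos P.ha hz
    linarith
  have hσ2 : σ ^ 2 = 3 / 4 - y ^ 2 := by
    have : σ ^ 2 + (h * z - a * p) ^ 2 = (p ^ 2 + z ^ 2) * (a ^ 2 + h ^ 2) := by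
      rw [hσ]; ring
    rw [hpe, e1] at this
    linarith
  rw [← hσ2, Real.sqrt_sq hσ0]
  constructor
  · linear_combination a * hpe + p * e1 + h * hσ
  · linear_combination (-h) * hpe + z * e1 + a * hσ

theorem y_lt (p z y : ℝ) (hpe : h * z - a * p = 1 / 2) (hr : p ^ 2 + y ^ 2 + z ^ 2 = 1)
    (H2t : 1 / 2 < b * y + k * z) (H2f : 1 / 2 < -(b * y) + k * z) : |y| < y0 := by
  by_contra hge
  push Not at hge
  have hx := P.hx; have hy := P.hy; have hz0 := P.hz
  have hb1 : b * |y| < k * z - 1 / 2 := by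
    rcases abs_cases y with ⟨h7, -⟩ | ⟨h7, -⟩ <;> rw [h7] <;> linarith
  have hb2 : b * y0 ≤ b * |y| := mul_le_mul_of_nonneg_left hge P.hb.le
  have hz1 : z0 < z := by
    have : k * z0 < k * z := by linarith [P.e4]
    exact lt_of_mul_lt_mul_left this P.hk.le
  have hp1 : x0 < p := by
    have : h * z0 < h * z := mul_lt_mul_of_pos_left hz1 P.hh
    exact lt_of_mul_lt_mul_left (by linarith [P.e3] : a * x0 < a * p) P.ha.le
  have s2 : y0 ^ 2 ≤ y ^ 2 := by
    rw [← sq_abs y]; gcongr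
  have s1 : x0 ^ 2 < p ^ 2 := by gcongr
  have s3 : z0 ^ 2 < z ^ 2 := by gcongr
  linarith [P.e5]

theorem x_lt (q z y : ℝ) (hpe : k * z - b * q = 1 / 2) (hr : q ^ 2 + y ^ 2 + z ^ 2 = 1)
    (H2t : 1 / 2 < a * y + h * z) (H2f : 1 / 2 < -(a * y) + h * z) : |y| < x0 := by
  have P' : Par b a k h y0 x0 z0 :=
    ⟨P.hb, P.ha, P.hk, P.hh, P.hy, P.hx, P.hz, P.e2, P.e1, P.e4, P.e3,
      by have := P.e5; linarith, P.n2, P.n1⟩
  exact P'.y_lt q z y hpe hr H2t H2f

theorem ExA (s : Bool) : Ex (ctr a b h k) {0, i1 s} = psiA a h s '' Ioo (-y0) y0 := by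
  have ha := P.ha; have hb := P.hb; have hh := P.hh; have hk := P.hk
  have hs := sg_sq s
  ext x
  constructor
  · rintro ⟨hx, hxI⟩
    have m0 : 0 ∈ spheresThrough (ctr a b h k) x := by rw [hxI]; simp
    have m1 : i1 s ∈ spheresThrough (ctr a b h k) x := by rw [hxI]; simp
    have m2 : ∀ t, i2 t ∉ spheresThrough (ctr a b h k) x := by
      intro t; rw [hxI]; cases s <;> cases t <;> decide
    rw [P.mem0] at m0
    rw [P.mem1] at m1
    rw [P.mem_body_iff] at hx
    obtain ⟨-, H1, H2⟩ := hx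
    have H1 := H1 (!s)
    rw [sg_not, m0] at H1
    rw [m0] at m1
    have H2' : ∀ t, 1 < 2 * (sg t * b * x 1 + k * x 2) := by
      intro t
      have h5 := H2 t
      have h6 := m2 t
      rw [P.mem2] at h6
      rw [m0] at h5 h6
      exact lt_of_le_of_ne h5 h6
    have H2t := H2' true
    have H2f := H2' false
    simp only [sg, if_true, Bool.false_eq_true, if_false] at H2t H2f
    obtain ⟨p, hp⟩ : ∃ p, x 0 = -(sg s * p) := ⟨-(sg s * x 0), (neg_sg_neg_sg s _).symm⟩
    rw [hp, sg_mul_neg] at m1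
    rw [hp, neg_sg_mul_neg] at H1
    rw [r2, hp, neg_sg_pow] at m0
    have hpe : h * x 2 - a * p = 1 / 2 := by linarith
    have hp0 := P.nonneg1 p _ hpe H1
    obtain ⟨l1, l2⟩ := P.on_line p (x 2) hpe hp0 (x 1) m0
    have hylt := P.y_lt p (x 2) (x 1) hpe m0 (by linarith) (by linarith)
    refine ⟨x 1, abs_lt.mp hylt, ?_⟩
    apply ext3
    · rw [psiA, mk0, l1, hp]
    · rw [psiA, mk1]
    · rw [psiA, mk2, l2]
  · rintro ⟨y, hy, rfl⟩
    have hy2 : y ^ 2 < y0 ^ 2 := sq_lt_sq' hy.1 hy.2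
    obtain ⟨hn, p1, p2, p3, -, p5⟩ := P.psi1 y hy2.le
    have p3 := p3 hy2
    rw [psiA]
    set σ := Real.sqrt (3 / 4 - y ^ 2)
    have hr : r2 !₂[-(sg s * (h * σ - a / 2)), y, h / 2 + a * σ] = 1 := by
      rw [r2_mk, ← p5, neg_sg_pow]
    have hyabs : |y| < y0 := abs_lt.mpr hy
    have hle : 0 < h * σ - a / 2 := by linarith [P.hx]
    have hline : h * (h / 2 + a * σ) - a * (h * σ - a / 2) = 1 / 2 := by
      linear_combination (1 / 2) * P.e1
    have E1s : sg s * a * (-(sg s * (h * σ - a / 2))) + h * (h / 2 + a * σ) = 1 / 2 := by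
      rw [sg_mul_neg]; linarith
    have E1n : 1 / 2 < -sg s * a * (-(sg s * (h * σ - a / 2))) + h * (h / 2 + a * σ) := by
      rw [neg_sg_mul_neg]
      have : 0 < a * (h * σ - a / 2) := mul_pos ha hle
      linarith
    have E2 : ∀ t, 1 / 2 < sg t * b * y + k * (h / 2 + a * σ) := by
      intro t
      have h6 : b * |y| < b * y0 := mul_lt_mul_of_pos_left hyabs hb
      have h7 : k * z0 < k * (h / 2 + a * σ) := mul_lt_mul_of_pos_left p3 hk
      have h8 : -(b * |y|) ≤ sg t * b * y := by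
        rcases sg_cases t with h9 | h9 <;> rw [h9]
        · have := mul_le_mul_of_nonneg_left (neg_abs_le y) hb.le; linarith
        · have := mul_le_mul_of_nonneg_left (le_abs_self y) hb.le; linarith
      linarith [P.e4]
    have E1 : ∀ t, t ≠ s → 1 / 2 < sg t * a * (-(sg s * (h * σ - a / 2))) + h * (h / 2 + a * σ) := by
      intro t ht
      have : t = !s := by cases s <;> cases t <;> simp_all
      rw [this, sg_not]; exact E1n
    constructor
    · rw [P.mem_body_iff, hr, mk0, mk1, mk2]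
      refine ⟨le_refl _, fun t => ?_, fun t => ?_⟩
      · by_cases ht : t = s
        · rw [ht, E1s]; norm_num
        · have := E1 t ht; linarith
      · have := E2 t; linarith
    · apply P.supp_eq
      · rw [hr]; simp
      · intro t
        rw [hr, mk0, mk2]
        by_cases ht : t = s
        · rw [ht, E1s]; simp
        · have h5 := E1 t ht
          have h6 : i1 t ∉ ({0, i1 s} : Finset (Fin 5)) := by
            cases s <;> cases t <;> first | decide | simp_all
          simp only [h6, iff_false]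
          intro h; linarith
      · intro t
        rw [hr, mk1, mk2]
        have h5 := E2 t
        have h6 : i2 t ∉ ({0, i1 s} : Finset (Fin 5)) := by
            cases s <;> cases t <;> decide
        simp only [h6, iff_false]
        intro h; linarith

theorem ExB (s : Bool) : Ex (ctr a b h k) {0, i2 s} = psiB b k s '' Ioo (-x0) x0 := by
  have ha := P.ha; have hb := P.hb; have hh := P.hh; have hk := P.hk
  have hs := sg_sq s
  ext x
  constructor
  · rintro ⟨hx, hxI⟩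
    have m0 : 0 ∈ spheresThrough (ctr a b h k) x := by rw [hxI]; simp
    have m1 : i2 s ∈ spheresThrough (ctr a b h k) x := by rw [hxI]; simp
    have m2 : ∀ t, i1 t ∉ spheresThrough (ctr a b h k) x := by
      intro t; rw [hxI]; cases s <;> cases t <;> decide
    rw [P.mem0] at m0
    rw [P.mem2] at m1
    rw [P.mem_body_iff] at hx
    obtain ⟨-, H2, H1⟩ := hx
    have H1 := H1 (!s)
    rw [sg_not, m0] at H1
    rw [m0] at m1
    have H2' : ∀ t, 1 < 2 * (sg t * a * x 0 + h * x 2) := by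
      intro t
      have h5 := H2 t
      have h6 := m2 t
      rw [P.mem1] at h6
      rw [m0] at h5 h6
      exact lt_of_le_of_ne h5 h6
    have H2t := H2' true
    have H2f := H2' false
    simp only [sg, if_true, Bool.false_eq_true, if_false] at H2t H2f
    obtain ⟨p, hp⟩ : ∃ p, x 1 = -(sg s * p) := ⟨-(sg s * x 1), (neg_sg_neg_sg s _).symm⟩
    rw [hp, sg_mul_neg] at m1
    rw [hp, neg_sg_mul_neg] at H1
    rw [r2, hp, neg_sg_pow] at m0
    have m0' : p ^ 2 + x 0 ^ 2 + x 2 ^ 2 = 1 := by linarith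
    have hpe : k * x 2 - b * p = 1 / 2 := by linarith
    have hp0 := P.nonneg2 p _ hpe H1
    have P' : Par b a k h y0 x0 z0 :=
      ⟨P.hb, P.ha, P.hk, P.hh, P.hy, P.hx, P.hz, P.e2, P.e1, P.e4, P.e3,
        by have := P.e5; linarith, P.n2, P.n1⟩
    obtain ⟨l1, l2⟩ := P'.on_line p (x 2) hpe hp0 (x 0) m0'
    have hylt := P.x_lt p (x 2) (x 0) hpe m0' (by linarith) (by linarith)
    refine ⟨x 0, abs_lt.mp hylt, ?_⟩
    apply ext3
    · rw [psiB, mk0]
    · rw [psiB, mk1, l1, hp]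
    · rw [psiB, mk2, l2]
  · rintro ⟨y, hy, rfl⟩
    have hy2 : y ^ 2 < x0 ^ 2 := sq_lt_sq' hy.1 hy.2
    obtain ⟨hn, p1, p2, p3, -, p5⟩ := P.psi2 y hy2.le
    have p3 := p3 hy2
    rw [psiB]
    set σ := Real.sqrt (3 / 4 - y ^ 2)
    have hr : r2 !₂[y, -(sg s * (k * σ - b / 2)), k / 2 + b * σ] = 1 := by
      rw [r2_mk, ← p5, neg_sg_pow]; ring
    have hyabs : |y| < x0 := abs_lt.mpr hy
    have hle : 0 < k * σ - b / 2 := by linarith [P.hy]
    have hline : k * (k / 2 + b * σ) - b * (k * σ - b / 2) = 1 / 2 := by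
      linear_combination (1 / 2) * P.e2
    have E1s : sg s * b * (-(sg s * (k * σ - b / 2))) + k * (k / 2 + b * σ) = 1 / 2 := by
      rw [sg_mul_neg]; linarith
    have E1n : 1 / 2 < -sg s * b * (-(sg s * (k * σ - b / 2))) + k * (k / 2 + b * σ) := by
      rw [neg_sg_mul_neg]
      have : 0 < b * (k * σ - b / 2) := mul_pos hb hle
      linarith
    have E2 : ∀ t, 1 / 2 < sg t * a * y + h * (k / 2 + b * σ) := by
      intro t
      have h6 : a * |y| < a * x0 := mul_lt_mul_of_pos_left hyabs ha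
      have h7 : h * z0 < h * (k / 2 + b * σ) := mul_lt_mul_of_pos_left p3 hh
      have h8 : -(a * |y|) ≤ sg t * a * y := by
        rcases sg_cases t with h9 | h9 <;> rw [h9]
        · have := mul_le_mul_of_nonneg_left (neg_abs_le y) ha.le; linarith
        · have := mul_le_mul_of_nonneg_left (le_abs_self y) ha.le; linarith
      linarith [P.e3]
    have E1 : ∀ t, t ≠ s → 1 / 2 < sg t * b * (-(sg s * (k * σ - b / 2))) + k * (k / 2 + b * σ) := by
      intro t ht
      have : t = !s := by cases s <;> cases t <;> simp_all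
      rw [this, sg_not]; exact E1n
    constructor
    · rw [P.mem_body_iff, hr, mk0, mk1, mk2]
      refine ⟨le_refl _, fun t => ?_, fun t => ?_⟩
      · have := E2 t; linarith
      · by_cases ht : t = s
        · rw [ht, E1s]; norm_num
        · have := E1 t ht; linarith
    · apply P.supp_eq
      · rw [hr]; simp
      · intro t
        rw [hr, mk0, mk2]
        have h5 := E2 t
        have h6 : i1 t ∉ ({0, i2 s} : Finset (Fin 5)) := by
            cases s <;> cases t <;> decide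
        simp only [h6, iff_false]
        intro h; linarith
      · intro t
        rw [hr, mk1, mk2]
        by_cases ht : t = s
        · rw [ht, E1s]; simp
        · have h5 := E1 t ht
          have h6 : i2 t ∉ ({0, i2 s} : Finset (Fin 5)) := by
            cases s <;> cases t <;> first | decide | simp_all
          simp only [h6, iff_false]
          intro h; linarith

/-- first coordinate of the inverted lateral edge -/
noncomputable def uC (a h : ℝ) (s : Bool) (τ : ℝ) : ℝ := -(sg s * ((h * τ - 1 / 2) / a))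

/-- parametrisation of the lateral edge on the spheres `i1 s` and `i2 t` -/
noncomputable def gamC (a b h k : ℝ) (s t : Bool) (τ : ℝ) : E3 :=
  !₂[uC a h s τ / (uC a h s τ ^ 2 + uC b k t τ ^ 2 + τ ^ 2),
    uC b k t τ / (uC a h s τ ^ 2 + uC b k t τ ^ 2 + τ ^ 2),
    τ / (uC a h s τ ^ 2 + uC b k t τ ^ 2 + τ ^ 2)]

theorem qC_pos (s t : Bool) (τ : ℝ) : 0 < uC a h s τ ^ 2 + uC b k t τ ^ 2 + τ ^ 2 := by
  have ha := P.ha
  by_cases hτ : τ = 0
  · have : uC a h s τ ≠ 0 := by
      unfold uC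
      rw [hτ]
      rcases sg_cases s with h | h <;> rw [h] <;> simp <;> exact ha.ne'
    positivity
  · positivity

theorem gamC_cont (s t : Bool) : Continuous (gamC a b h k s t) := by
  unfold gamC
  have h1 : Continuous (uC a h s) := by unfold uC; fun_prop
  have h2 : Continuous (uC b k t) := by unfold uC; fun_prop
  have h3 : Continuous (fun τ => uC a h s τ ^ 2 + uC b k t τ ^ 2 + τ ^ 2) := by fun_prop
  have h4 : ∀ τ, uC a h s τ ^ 2 + uC b k t τ ^ 2 + τ ^ 2 ≠ 0 := fun τ => (P.qC_pos s t τ).ne'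
  have g1 := h1.div h3 h4
  have g2 := h2.div h3 h4
  have g3 := continuous_id.div h3 h4
  have : Continuous (fun τ => (![uC a h s τ / (uC a h s τ ^ 2 + uC b k t τ ^ 2 + τ ^ 2),
    uC b k t τ / (uC a h s τ ^ 2 + uC b k t τ ^ 2 + τ ^ 2),
    τ / (uC a h s τ ^ 2 + uC b k t τ ^ 2 + τ ^ 2)] : Fin 3 → ℝ)) := by
    refine continuous_pi (fun i => ?_)
    fin_cases i
    · exact g1
    · exact g2
    · exact g3
  exact (PiLp.continuous_toLp 2 _).comp this

theorem uC_eq (s : Bool) (τ : ℝ) : sg s * a * uC a h s τ = -(h * τ - 1 / 2) := by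
  have ha := P.ha
  unfold uC
  rw [sg_mul_neg]
  field_simp

theorem uC_eq2 (s : Bool) (τ : ℝ) : sg s * b * uC b k s τ = -(k * τ - 1 / 2) := by
  have hb := P.hb
  unfold uC
  rw [sg_mul_neg]
  field_simp

theorem gamC_mem (s t : Bool) (τ : ℝ) (hτ : z0 < τ) :
    gamC a b h k s t τ ∈ Ex (ctr a b h k) {i1 s, i2 t} := by
  have ha := P.ha; have hb := P.hb
  have hx := P.hx; have hy := P.hy; have hz := P.hz
  have g1 : h * z0 < h * τ := mul_lt_mul_of_pos_left hτ P.hh
  have g2 : k * z0 < k * τ := mul_lt_mul_of_pos_left hτ P.hk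
  have hp : x0 < (h * τ - 1 / 2) / a := by
    rw [lt_div_iff₀ ha]; linarith [P.e3]
  have hq : y0 < (k * τ - 1 / 2) / b := by
    rw [lt_div_iff₀ hb]; linarith [P.e4]
  have hqq : 1 < uC a h s τ ^ 2 + uC b k t τ ^ 2 + τ ^ 2 := by
    unfold uC
    rw [neg_sg_pow, neg_sg_pow]
    have s1 : x0 ^ 2 < ((h * τ - 1 / 2) / a) ^ 2 := by gcongr
    have s2 : y0 ^ 2 < ((k * τ - 1 / 2) / b) ^ 2 := by gcongr
    have s3 : z0 ^ 2 < τ ^ 2 := by gcongr
    linarith [P.e5]
  have K1 : ∀ s', s' ≠ s → 1 / 2 < sg s' * a * uC a h s τ + h * τ := by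
    intro s' hs'
    have : s' = !s := by cases s <;> cases s' <;> simp_all
    rw [this, sg_not]
    have := P.uC_eq s τ
    linarith [P.hz_gt]
  have K2 : ∀ t', t' ≠ t → 1 / 2 < sg t' * b * uC b k t τ + k * τ := by
    intro t' ht'
    have : t' = !t := by cases t <;> cases t' <;> simp_all
    rw [this, sg_not]
    have := P.uC_eq2 t τ
    linarith [P.kz_gt]
  refine P.inv_mem (uC a h s τ) (uC b k t τ) τ {i1 s, i2 t} hqq.le ?_ ?_ ?_ ?_ ?_
  · intro s'
    by_cases hs' : s' = s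
    · rw [hs', P.uC_eq]; linarith
    · have := K1 s' hs'; linarith
  · intro t'
    by_cases ht' : t' = t
    · rw [ht', P.uC_eq2]; linarith
    · have := K2 t' ht'; linarith
  · have : (0 : Fin 5) ∉ ({i1 s, i2 t} : Finset (Fin 5)) := by cases s <;> cases t <;> decide
    simp only [this, iff_false]
    linarith
  · intro s'
    by_cases hs' : s' = s
    · rw [hs', P.uC_eq]
      simp
    · have h5 := K1 s' hs'
      have h6 : i1 s' ∉ ({i1 s, i2 t} : Finset (Fin 5)) := by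
        cases s <;> cases s' <;> cases t <;> first | decide | simp_all
      simp only [h6, iff_false]
      intro h; linarith
  · intro t'
    by_cases ht' : t' = t
    · rw [ht', P.uC_eq2]
      simp
    · have h5 := K2 t' ht'
      have h6 : i2 t' ∉ ({i1 s, i2 t} : Finset (Fin 5)) := by
        cases s <;> cases t' <;> cases t <;> first | decide | simp_all
      simp only [h6, iff_false]
      intro h; linarith

theorem ExC (s t : Bool) :
    Ex (ctr a b h k) {i1 s, i2 t} = gamC a b h k s t '' Ioi z0 := by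
  have ha := P.ha; have hb := P.hb
  apply subset_antisymm
  · rintro x ⟨hx, hxI⟩
    have m0 : 0 ∉ spheresThrough (ctr a b h k) x := by
      rw [hxI]; cases s <;> cases t <;> decide
    have m1 : i1 s ∈ spheresThrough (ctr a b h k) x := by rw [hxI]; simp
    have m2 : i2 t ∈ spheresThrough (ctr a b h k) x := by rw [hxI]; simp
    rw [P.mem0] at m0
    rw [P.mem1] at m1
    rw [P.mem2] at m2
    have hr0 : 0 < r2 x := by
      refine lt_of_le_of_ne (P.r2_nonneg x) (fun h0 => ?_)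
      have hx0 := P.eq_zero_of_r2 x h0.symm
      rw [hx0, P.supp_zero] at hxI
      cases s <;> cases t <;> revert hxI <;> decide
    rw [P.mem_body_iff] at hx
    obtain ⟨H0, H1, H2⟩ := hx
    have hr1 : r2 x < 1 := lt_of_le_of_ne H0 m0
    have H1 := H1 (!s)
    have H2 := H2 (!t)
    rw [sg_not] at H1 H2
    have hrr : r2 x = x 0 ^ 2 + x 1 ^ 2 + x 2 ^ 2 := rfl
    set r := r2 x with hr
    set τ := x 2 / r with hτ
    have hx2 : x 2 = τ * r := by rw [hτ]; field_simp
    obtain ⟨p, hp⟩ : ∃ p, x 0 = -(sg s * p) * r :=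
      ⟨-(sg s * (x 0 / r)), by rw [neg_sg_neg_sg]; field_simp⟩
    obtain ⟨q, hq⟩ : ∃ q, x 1 = -(sg t * q) * r :=
      ⟨-(sg t * (x 1 / r)), by rw [neg_sg_neg_sg]; field_simp⟩
    have hpe : h * τ - a * p = 1 / 2 := by
      have : r * 1 = r * (2 * (h * τ - a * p)) := by
        rw [hp, hx2] at m1
        have e := sg_mul_neg s a p
        linear_combination m1 + 2 * r * e
      have := mul_left_cancel₀ hr0.ne' this
      linarith
    have hqe : k * τ - b * q = 1 / 2 := by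
      have : r * 1 = r * (2 * (k * τ - b * q)) := by
        rw [hq, hx2] at m2
        have e := sg_mul_neg t b q
        linear_combination m2 + 2 * r * e
      have := mul_left_cancel₀ hr0.ne' this
      linarith
    have hp0 : 0 ≤ p := by
      refine P.nonneg1 p τ hpe ?_
      have : r * 1 ≤ r * (2 * (a * p + h * τ)) := by
        rw [hp, hx2] at H1
        have e := neg_sg_mul_neg s a p
        have e' : 2 * (-sg s * a * (-(sg s * p) * r) + h * (τ * r)) = r * (2 * (a * p + h * τ)) := by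
          linear_combination 2 * r * e
        linarith
      exact le_of_mul_le_mul_left this hr0
    have hq0 : 0 ≤ q := by
      refine P.nonneg2 q τ hqe ?_
      have : r * 1 ≤ r * (2 * (b * q + k * τ)) := by
        rw [hq, hx2] at H2
        have e := neg_sg_mul_neg t b q
        have e' : 2 * (-sg t * b * (-(sg t * q) * r) + k * (τ * r)) = r * (2 * (b * q + k * τ)) := by
          linear_combination 2 * r * e
        linarith
      exact le_of_mul_le_mul_left this hr0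
    have hsum : r * (p ^ 2 + q ^ 2 + τ ^ 2) = 1 := by
      have : r * (r * (p ^ 2 + q ^ 2 + τ ^ 2)) = r * 1 := by
        rw [hp, hq, hx2, mul_pow, mul_pow, neg_sg_pow, neg_sg_pow] at hrr
        linear_combination -hrr
      exact mul_left_cancel₀ hr0.ne' this
    have hbig : 1 < p ^ 2 + q ^ 2 + τ ^ 2 := by
      by_contra hle
      push Not at hle
      have : r * (p ^ 2 + q ^ 2 + τ ^ 2) ≤ r * 1 := mul_le_mul_of_nonneg_left hle hr0.le
      linarith
    have hτ0 := P.z_pos p τ hp0 hpe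
    have hτz : z0 < τ := by
      by_contra hle
      push Not at hle
      have g1 : h * τ ≤ h * z0 := mul_le_mul_of_nonneg_left hle P.hh.le
      have g2 : k * τ ≤ k * z0 := mul_le_mul_of_nonneg_left hle P.hk.le
      have h3' : p ≤ x0 := le_of_mul_le_mul_left (by linarith [P.e3] : a * p ≤ a * x0) P.ha
      have h4' : q ≤ y0 := le_of_mul_le_mul_left (by linarith [P.e4] : b * q ≤ b * y0) P.hb
      have s1 : p ^ 2 ≤ x0 ^ 2 := by gcongr
      have s2 : q ^ 2 ≤ y0 ^ 2 := by gcongr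
      have s3 : τ ^ 2 ≤ z0 ^ 2 := by gcongr
      linarith [P.e5]
    refine ⟨τ, hτz, ?_⟩
    have hpd : (h * τ - 1 / 2) / a = p := by
      rw [div_eq_iff ha.ne']; linarith
    have hqd : (k * τ - 1 / 2) / b = q := by
      rw [div_eq_iff hb.ne']; linarith
    have hinv : p ^ 2 + q ^ 2 + τ ^ 2 = r⁻¹ := eq_inv_of_mul_eq_one_right hsum
    apply ext3
    · rw [gamC, mk0, uC, uC, neg_sg_pow, neg_sg_pow, hpd, hqd, hinv, div_inv_eq_mul, hp]
    · rw [gamC, mk1, uC, uC, neg_sg_pow, neg_sg_pow, hpd, hqd, hinv, div_inv_eq_mul, hq]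
    · rw [gamC, mk2, uC, uC, neg_sg_pow, neg_sg_pow, hpd, hqd, hinv, div_inv_eq_mul, hx2]
  · rintro x ⟨τ, hτ, rfl⟩
    exact P.gamC_mem s t τ hτ

theorem r2_gamC (s t : Bool) (τ : ℝ) :
    r2 (gamC a b h k s t τ) = 1 / (uC a h s τ ^ 2 + uC b k t τ ^ 2 + τ ^ 2) := by
  have := P.qC_pos s t τ
  rw [gamC, r2_mk, div_pow, div_pow, div_pow, ← add_div, ← add_div]
  field_simp

theorem gamC_tendsto (s t : Bool) : Tendsto (gamC a b h k s t) atTop (𝓝 0) := by
  have h1 : Tendsto (fun τ : ℝ => τ⁻¹) atTop (𝓝 0) := tendsto_inv_atTop_zero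
  refine squeeze_zero_norm' ?_ h1
  filter_upwards [eventually_gt_atTop 0] with τ hτ
  have e := r2_eq (gamC a b h k s t τ)
  rw [P.r2_gamC] at e
  have h2 : ‖gamC a b h k s t τ‖ ^ 2 ≤ (τ⁻¹) ^ 2 := by
    rw [← e, inv_pow, ← one_div]
    apply one_div_le_one_div_of_le (by positivity)
    nlinarith [sq_nonneg (uC a h s τ), sq_nonneg (uC b k t τ)]
  exact le_of_sq_le_sq h2 (by positivity)

theorem gamC_z0 (s t : Bool) : gamC a b h k s t z0 = !₂[-(sg s * x0), -(sg t * y0), z0] := by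
  have ha := P.ha; have hb := P.hb
  have hpd : (h * z0 - 1 / 2) / a = x0 := by
    rw [div_eq_iff ha.ne']; linarith [P.e3]
  have hqd : (k * z0 - 1 / 2) / b = y0 := by
    rw [div_eq_iff hb.ne']; linarith [P.e4]
  have e5 := P.e5
  rw [gamC, uC, uC, neg_sg_pow, neg_sg_pow, hpd, hqd, e5, div_one, div_one, div_one]

theorem hE1 (I : Finset (Fin 5)) (hI : I ∈ LL) (hc : I.card = 2) :
    IsPreconnected (Ex (ctr a b h k) I) := by
  rcases LL_pairs I hI hc with ⟨s, rfl⟩ | ⟨s, rfl⟩ | ⟨s, t, rfl⟩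
  · rw [P.ExA]
    exact isPreconnected_Ioo.image _ (psiA_cont s).continuousOn
  · rw [P.ExB]
    exact isPreconnected_Ioo.image _ (psiB_cont s).continuousOn
  · rw [P.ExC]
    exact isPreconnected_Ioi.image _ (P.gamC_cont s t).continuousOn

theorem hE2 (I : Finset (Fin 5)) (hI : I ∈ LL) (hc : I.card = 2) :
    G (ctr a b h k) I ⊆ closure (Ex (ctr a b h k) I) := by
  have hy := P.hy; have hx0 := P.hx
  rcases LL_pairs I hI hc with ⟨s, rfl⟩ | ⟨s, rfl⟩ | ⟨s, t, rfl⟩
  · rintro x ⟨hx, hxI⟩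
    obtain ⟨hL, hu⟩ := P.hA x hx
    rcases LL_sup01 s _ hL hxI with hh | hh | ⟨t, hh⟩
    · exact subset_closure ⟨hx, hh⟩
    · exact absurd hh hu
    · have hw := P.wpt s t x hx (by rw [hh]; simp) (by rw [hh]; simp) (by rw [hh]; simp)
      rw [P.ExA]
      have h1 : x = psiA a h s (-(sg t * y0)) := by
        obtain ⟨-, -, -, -, p4, -⟩ := P.psi1 y0 le_rfl
        obtain ⟨p5, p6⟩ := p4 rfl
        rw [hw, psiA, neg_sg_pow, p5, p6]
      rw [h1]
      refine image_closure_subset_closure_image (psiA_cont s) ⟨_, ?_, rfl⟩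
      rw [closure_Ioo (by linarith)]
      rcases sg_cases t with h9 | h9 <;> rw [h9] <;> constructor <;> linarith
  · rintro x ⟨hx, hxI⟩
    obtain ⟨hL, hu⟩ := P.hA x hx
    rcases LL_sup02 s _ hL hxI with h | h | ⟨t, h⟩
    · exact subset_closure ⟨hx, h⟩
    · exact absurd h hu
    · have hw := P.wpt t s x hx (by rw [h]; simp) (by rw [h]; simp) (by rw [h]; simp)
      rw [P.ExB]
      have h1 : x = psiB b k s (-(sg t * x0)) := by
        obtain ⟨-, -, -, -, p4, -⟩ := P.psi2 x0 le_rfl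
        obtain ⟨p5, p6⟩ := p4 rfl
        rw [hw, psiB, neg_sg_pow, p5, p6]
      rw [h1]
      refine image_closure_subset_closure_image (psiB_cont s) ⟨_, ?_, rfl⟩
      rw [closure_Ioo (by linarith)]
      rcases sg_cases t with h9 | h9 <;> rw [h9] <;> constructor <;> linarith
  · rintro x ⟨hx, hxI⟩
    obtain ⟨hL, hu⟩ := P.hA x hx
    rcases LL_sup12 s t _ hL hxI with h | h | h | h
    · exact subset_closure ⟨hx, h⟩
    · exact absurd h hu
    · have hw := P.wpt s t x hx (by rw [h]; simp) (by rw [h]; simp) (by rw [h]; simp)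
      rw [P.ExC, hw, ← P.gamC_z0 s t]
      refine image_closure_subset_closure_image (P.gamC_cont s t) ⟨z0, ?_, rfl⟩
      rw [closure_Ioi]
      exact self_mem_Ici
    · have hx0 := P.apex1 x hx (by rw [h]; decide) (by rw [h]; decide)
      rw [P.ExC, hx0]
      refine mem_closure_of_tendsto (P.gamC_tendsto s t) ?_
      filter_upwards [eventually_gt_atTop z0] with τ hτ
      exact ⟨τ, hτ, rfl⟩

theorem typ : Typ (ctr a b h k) LL where
  hA := P.hA
  hB := P.hB
  hD := P.hD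
  hE1 := P.hE1
  hE2 := P.hE2
  hn := by norm_num
  hempty := by decide
  huniv := by decide
  hsing := LL_sing
  hinter := LL_inter

theorem int_nonempty : (interior (body (ctr a b h k))).Nonempty := by
  have hh := P.h_gt; have hk := P.k_gt
  refine ⟨!₂[0, 0, 1 / 2], ?_⟩
  have hsub : (⋂ i, Metric.ball (ctr a b h k i) 1) ⊆ body (ctr a b h k) :=
    iInter_mono (fun i => Metric.ball_subset_closedBall)
  have hopen : IsOpen (⋂ i, Metric.ball (ctr a b h k i) 1) :=
    isOpen_iInter_of_finite (fun i => Metric.isOpen_ball)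
  refine interior_maximal hsub hopen ?_
  have hb : (!₂[0, 0, 1 / 2] : E3) ∈ body (ctr a b h k) := by
    rw [P.mem_body_iff, r2_mk, mk0, mk1, mk2]
    refine ⟨by norm_num, fun s => by linarith, fun s => by linarith⟩
  have hs : spheresThrough (ctr a b h k) (!₂[0, 0, 1 / 2] : E3) = ∅ := by
    apply P.supp_eq
    · rw [r2_mk]; norm_num
    · intro s
      rw [r2_mk, mk0, mk2]
      simp only [Finset.notMem_empty, iff_false]
      intro h; linarith
    · intro s
      rw [r2_mk, mk1, mk2]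
      simp only [Finset.notMem_empty, iff_false]
      intro h; linarith
  rw [mem_iInter]
  intro i
  have h1 : dist (!₂[0, 0, 1 / 2] : E3) (ctr a b h k i) ≤ 1 := by
    have := mem_iInter.mp hb i
    exact this
  have h2 : i ∉ spheresThrough (ctr a b h k) (!₂[0, 0, 1 / 2] : E3) := by rw [hs]; simp
  rw [mem_spheresThrough, Metric.mem_sphere] at h2
  exact lt_of_le_of_ne h1 h2

theorem isBallPolyhedron : IsBallPolyhedron (ctr a b h k) := by
  have ha := P.ha; have hb := P.hb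
  have hh := P.h_gt; have hk := P.k_gt
  have e1 := P.e1; have e2 := P.e2
  refine ⟨P.int_nonempty, ?_⟩
  -- it is enough to find a point in all balls but one
  have key : ∀ (i : Fin 5) (x : E3), (∀ j, j ≠ i → dist x (ctr a b h k j) ≤ 1) →
      x ∉ body (ctr a b h k) →
      (⋂ j ∈ {j | j ≠ i}, Metric.closedBall (ctr a b h k j) 1) ≠ body (ctr a b h k) := by
    intro i x H hx heq
    apply hx
    rw [← heq]
    simp only [mem_iInter]
    intro j hj
    exact H j hj
  have k1 : ∀ s, (⋂ j ∈ {j | j ≠ i1 s}, Metric.closedBall (ctr a b h k j) 1)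
      ≠ body (ctr a b h k) := by
    intro s
    have hr : r2 !₂[-(sg s * (h * a / 2)), 0, a ^ 2 / 4] = a ^ 2 / 4 * (h ^ 2 + a ^ 2 / 4) := by
      rw [r2_mk, neg_sg_pow]; ring
    have ha1 : a ^ 2 < 1 := by nlinarith
    have hr1 : a ^ 2 / 4 * (h ^ 2 + a ^ 2 / 4) ≤ a ^ 2 / 4 := by
      have : h ^ 2 + a ^ 2 / 4 ≤ 1 := by nlinarith
      nlinarith [sq_nonneg a]
    have hr2 : 0 < a ^ 2 / 4 * (h ^ 2 + a ^ 2 / 4) := by positivity
    refine key (i1 s) !₂[-(sg s * (h * a / 2)), 0, a ^ 2 / 4] ?_ ?_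
    · intro j hj
      have hj' : j = 0 ∨ j = i1 (!s) ∨ j = i2 true ∨ j = i2 false := by
        revert hj; cases s <;> fin_cases j <;> decide
      rcases hj' with rfl | rfl | rfl | rfl
      · rw [dist0_le, hr]; linarith
      · rw [dist1_le e1, hr, mk0, mk2, sg_not, neg_sg_mul_neg]
        have : 0 < a * (h * a / 2) := by positivity
        nlinarith
      · rw [dist2_le e2, hr, mk1, mk2]; nlinarith [sq_nonneg a]
      · rw [dist2_le e2, hr, mk1, mk2]; nlinarith [sq_nonneg a]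
    · intro hx
      rw [P.mem_body_iff, hr, mk0, mk1, mk2] at hx
      have := hx.2.1 s
      rw [sg_mul_neg] at this
      have h2 : 0 < h * a ^ 2 := by positivity
      nlinarith
  have k2 : ∀ s, (⋂ j ∈ {j | j ≠ i2 s}, Metric.closedBall (ctr a b h k j) 1)
      ≠ body (ctr a b h k) := by
    intro s
    have hr : r2 !₂[0, -(sg s * (k * b / 2)), b ^ 2 / 4] = b ^ 2 / 4 * (k ^ 2 + b ^ 2 / 4) := by
      rw [r2_mk, neg_sg_pow]; ring
    have ha1 : b ^ 2 < 1 := by nlinarith
    have hr1 : b ^ 2 / 4 * (k ^ 2 + b ^ 2 / 4) ≤ b ^ 2 / 4 := by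
      have : k ^ 2 + b ^ 2 / 4 ≤ 1 := by nlinarith
      nlinarith [sq_nonneg b]
    have hr2 : 0 < b ^ 2 / 4 * (k ^ 2 + b ^ 2 / 4) := by positivity
    refine key (i2 s) !₂[0, -(sg s * (k * b / 2)), b ^ 2 / 4] ?_ ?_
    · intro j hj
      have hj' : j = 0 ∨ j = i2 (!s) ∨ j = i1 true ∨ j = i1 false := by
        revert hj; cases s <;> fin_cases j <;> decide
      rcases hj' with rfl | rfl | rfl | rfl
      · rw [dist0_le, hr]; linarith
      · rw [dist2_le e2, hr, mk1, mk2, sg_not, neg_sg_mul_neg]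
        have : 0 < b * (k * b / 2) := by positivity
        nlinarith
      · rw [dist1_le e1, hr, mk0, mk2]; nlinarith [sq_nonneg b]
      · rw [dist1_le e1, hr, mk0, mk2]; nlinarith [sq_nonneg b]
    · intro hx
      rw [P.mem_body_iff, hr, mk0, mk1, mk2] at hx
      have := hx.2.2 s
      rw [sg_mul_neg] at this
      have h2 : 0 < k * b ^ 2 := by positivity
      nlinarith
  have k0 : (⋂ j ∈ {j | j ≠ (0 : Fin 5)}, Metric.closedBall (ctr a b h k j) 1)
      ≠ body (ctr a b h k) := by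
    have hm : 1 < min (2 * h) (2 * k) := lt_min (by linarith) (by linarith)
    have hm1 : min (2 * h) (2 * k) ≤ 2 * h := min_le_left _ _
    have hm2 : min (2 * h) (2 * k) ≤ 2 * k := min_le_right _ _
    set m := min (2 * h) (2 * k)
    refine key 0 !₂[0, 0, m] ?_ ?_
    · intro j hj
      have hj' : (∃ s, j = i1 s) ∨ (∃ s, j = i2 s) := by
        revert hj; fin_cases j <;> decide
      rcases hj' with ⟨s, rfl⟩ | ⟨s, rfl⟩
      · rw [dist1_le e1, r2_mk, mk0, mk2]; nlinarith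
      · rw [dist2_le e2, r2_mk, mk1, mk2]; nlinarith
    · intro hx
      rw [P.mem_body_iff, r2_mk] at hx
      have := hx.1
      nlinarith
  intro i
  fin_cases i
  · exact k0
  · exact k1 true
  · exact k2 true
  · exact k1 false
  · exact k2 false

end Par

/-! ### Dihedral angles -/

theorem cos_side (u v p : E3) (hu : dist p u = 1) (hv : dist p v = 1) :
    InnerProductGeometry.angle (u - p) (v - p) = Real.arccos (1 - dist u v ^ 2 / 2) := by
  have h1 : ‖u - p‖ = 1 := by rw [← dist_eq_norm, dist_comm]; exact hu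
  have h2 : ‖v - p‖ = 1 := by rw [← dist_eq_norm, dist_comm]; exact hv
  have h3 : dist u v = ‖(u - p) - (v - p)‖ := by rw [dist_eq_norm]; congr 1; abel
  unfold InnerProductGeometry.angle
  rw [h1, h2, h3, norm_sub_sq_real, h1, h2]
  congr 1
  ring

theorem Typ.dihedral {n : ℕ} {c : Fin n → E3} {L : Finset (Finset (Fin n))} (T : Typ c L)
    (i j : Fin n) (hij : i ≠ j) (hI : {i, j} ∈ L) (t : ℝ) :
    IsInnerDihedralAngle c (G c {i, j}) t ↔
      t = Real.pi - Real.arccos (1 - dist (c i) (c j) ^ 2 / 2) := by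
  have hcard : ({i, j} : Finset (Fin n)).card = 2 := Finset.card_pair hij
  constructor
  · rintro ⟨p, ⟨hpG, hpE⟩, i', j', hij', hi', hj', rfl⟩
    rw [edgePoints_eq] at hpE
    have hs : {i, j} = spheresThrough c p :=
      Finset.eq_of_subset_of_card_le hpG.2 (by rw [hpE.2, hcard])
    rw [cos_side _ _ _ hi' hj']
    rw [← mem_spheresThrough, ← hs] at hi' hj'
    simp only [Finset.mem_insert, Finset.mem_singleton] at hi' hj'
    rcases hi' with rfl | rfl <;> rcases hj' with rfl | rfl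
    · exact absurd rfl hij'
    · rfl
    · rw [dist_comm]
    · exact absurd rfl hij'
  · rintro rfl
    have hu : ({i, j} : Finset (Fin n)) ≠ Finset.univ := by
      intro h
      rw [h, Finset.card_univ, Fintype.card_fin] at hcard
      have := T.hn
      omega
    obtain ⟨p, hp⟩ := T.hB _ hI hu
    have hi : p ∈ Metric.sphere (c i) 1 := by
      rw [← mem_spheresThrough, hp.2]; simp
    have hj : p ∈ Metric.sphere (c j) 1 := by
      rw [← mem_spheresThrough, hp.2]; simp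
    refine ⟨p, ⟨Ex_subset_G _ hp, ?_⟩, i, j, hij, hi, hj, ?_⟩
    · rw [edgePoints_eq]
      exact ⟨hp.1, by rw [hp.2, hcard]⟩
    · rw [cos_side _ _ _ hi hj]

/-! ### Tangent directions -/

theorem dir_bound {x D W : E3} {z : ℝ} (hz : 0 ≤ z) (hn : 0 < ‖x‖) (hδ : 0 < ‖D‖)
    (hx : x = z • D + (‖x‖ ^ 2 / 2) • W) :
    ‖‖x‖⁻¹ • x - ‖D‖⁻¹ • D‖ ≤ ‖x‖ * ‖W‖ := by
  set n := ‖x‖ with hnd
  set δ := ‖D‖ with hδd
  have h1 : |z * δ - n| ≤ n ^ 2 / 2 * ‖W‖ := by
    have h2 : ‖z • D‖ = z * δ := by rw [norm_smul, Real.norm_of_nonneg hz]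
    have h3 : ‖z • D - x‖ = n ^ 2 / 2 * ‖W‖ := by
      have : z • D - x = -((n ^ 2 / 2) • W) := by
        have e : z • D - x = z • D - (z • D + (n ^ 2 / 2) • W) := by rw [← hx]
        rw [e]; abel
      rw [this, norm_neg, norm_smul, Real.norm_of_nonneg (by positivity)]
    calc |z * δ - n| = |‖z • D‖ - ‖x‖| := by rw [h2]
      _ ≤ ‖z • D - x‖ := abs_norm_sub_norm_le _ _
      _ = _ := h3
  have h4 : n⁻¹ • x - δ⁻¹ • D = (z / n - δ⁻¹) • D + (n / 2) • W := by
    have e : n⁻¹ • x = (z / n) • D + (n / 2) • W := by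
      rw [hx, smul_add, smul_smul, smul_smul]
      congr 2
      · rw [div_eq_inv_mul]
      · field_simp
    rw [e, sub_smul]; abel
  have h5 : ‖(z / n - δ⁻¹) • D‖ ≤ n / 2 * ‖W‖ := by
    rw [norm_smul, Real.norm_eq_abs, ← hδd]
    have : |z / n - δ⁻¹| * δ = |z * δ - n| / n := by
      have e : z / n - δ⁻¹ = (z * δ - n) / (n * δ) := by field_simp
      rw [e, abs_div, abs_of_pos (by positivity : 0 < n * δ)]
      field_simp
    rw [this, div_le_iff₀ hn]
    calc |z * δ - n| ≤ n ^ 2 / 2 * ‖W‖ := h1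
      _ = n / 2 * ‖W‖ * n := by ring
  rw [h4]
  calc ‖(z / n - δ⁻¹) • D + (n / 2) • W‖ ≤ ‖(z / n - δ⁻¹) • D‖ + ‖(n / 2) • W‖ := norm_add_le _ _
    _ ≤ n / 2 * ‖W‖ + n / 2 * ‖W‖ := by
        gcongr
        rw [norm_smul, Real.norm_of_nonneg (by positivity)]
    _ = n * ‖W‖ := by ring

/-- direction of the lateral edge at the apex -/
noncomputable def dirD (a b h k : ℝ) (s t : Bool) : E3 :=
  !₂[-(sg s * (h / a)), -(sg t * (k / b)), 1]

theorem norm_dirD_sq (a b h k : ℝ) (s t : Bool) :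
    ‖dirD a b h k s t‖ ^ 2 = (h / a) ^ 2 + (k / b) ^ 2 + 1 := by
  rw [← r2_eq, dirD, r2_mk, neg_sg_pow, neg_sg_pow]; norm_num

theorem inner3 (x y : E3) : inner ℝ x y = x 0 * y 0 + x 1 * y 1 + x 2 * y 2 := by
  simp [PiLp.inner_apply, Fin.sum_univ_three]; ring

theorem inner_dirD (a b h k : ℝ) (s : Bool) :
    inner ℝ (dirD a b h k s true) (dirD a b h k s false) = (h / a) ^ 2 - (k / b) ^ 2 + 1 := by
  have hs := sg_sq s
  have h1 : sg true = 1 := by simp [sg]
  have h2 : sg false = -1 := by simp [sg]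
  rw [inner3, dirD, dirD, mk0, mk0, mk1, mk1, mk2, mk2, h1, h2]
  linear_combination (h / a) ^ 2 * hs

namespace Par

variable {a b h k x0 y0 z0 : ℝ} (P : Par a b h k x0 y0 z0)

include P

theorem dirD_pos (s t : Bool) : 0 < ‖dirD a b h k s t‖ := by
  rw [norm_pos_iff]
  intro h0
  have := congrArg (fun x : E3 => x 2) h0
  simp [dirD] at this

theorem tangent (s t : Bool) :
    IsTangentDir (G (ctr a b h k) {i1 s, i2 t}) 0
      (‖dirD a b h k s t‖⁻¹ • dirD a b h k s t) := by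
  have ha := P.ha; have hb := P.hb; have hh := P.hh
  have hD := P.dirD_pos s t
  refine ⟨?_, ?_, ?_⟩
  · rw [norm_smul, norm_inv, norm_norm, inv_mul_cancel₀ hD.ne']
  · rw [← mem_closure_iff_nhdsWithin_neBot]
    refine mem_closure_of_tendsto (P.gamC_tendsto s t) ?_
    filter_upwards [eventually_gt_atTop z0] with τ hτ
    refine ⟨Ex_subset_G _ (P.gamC_mem s t τ hτ), ?_⟩
    intro h0
    have h1 : gamC a b h k s t τ = 0 := h0
    have h2 := P.r2_gamC s t τ
    rw [h1] at h2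
    have h3 := P.qC_pos s t τ
    have h4 : (0 : ℝ) < 1 / (uC a h s τ ^ 2 + uC b k t τ ^ 2 + τ ^ 2) := by positivity
    rw [← h2] at h4
    simp [r2] at h4
  · rw [tendsto_iff_norm_sub_tendsto_zero]
    have hW : Tendsto (fun x : E3 => ‖x‖ * ‖(!₂[sg s / a, sg t / b, 0] : E3)‖)
        (𝓝[G (ctr a b h k) {i1 s, i2 t} \ {0}] 0) (𝓝 0) := by
      have h1 : Tendsto (fun x : E3 => ‖x‖ * ‖(!₂[sg s / a, sg t / b, 0] : E3)‖) (𝓝 0)
          (𝓝 (‖(0 : E3)‖ * ‖(!₂[sg s / a, sg t / b, 0] : E3)‖)) :=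
        (continuous_norm.tendsto 0).mul_const _
      rw [norm_zero, zero_mul] at h1
      exact h1.mono_left nhdsWithin_le_nhds
    refine squeeze_zero' (Eventually.of_forall (fun x => norm_nonneg _)) ?_ hW
    filter_upwards [self_mem_nhdsWithin] with x hx
    obtain ⟨⟨hxb, hxI⟩, hx0⟩ := hx
    have hx0 : x ≠ 0 := hx0
    have hn : 0 < ‖x‖ := norm_pos_iff.mpr hx0
    have m1 : i1 s ∈ spheresThrough (ctr a b h k) x := hxI (by simp)
    have m2 : i2 t ∈ spheresThrough (ctr a b h k) x := hxI (by simp)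
    rw [P.mem1] at m1
    rw [P.mem2] at m2
    rw [P.mem_body_iff] at hxb
    have H1 := hxb.2.1 (!s)
    rw [sg_not] at H1
    have hr := P.r2_nonneg x
    have hz : 0 ≤ x 2 := by
      have : 0 ≤ h * x 2 := by linarith
      exact nonneg_of_mul_nonneg_right this hh
    rw [sub_zero]
    refine dir_bound (z := x 2) hz hn hD ?_
    rw [← r2_eq]
    have hs := sg_sq s
    have ht := sg_sq t
    apply ext3
    · rw [PiLp.add_apply, PiLp.smul_apply, PiLp.smul_apply, dirD, mk0, mk0, smul_eq_mul,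
        smul_eq_mul]
      field_simp
      linear_combination (-(sg s) * m1) - 2 * a * x 0 * hs
    · rw [PiLp.add_apply, PiLp.smul_apply, PiLp.smul_apply, dirD, mk1, mk1, smul_eq_mul,
        smul_eq_mul]
      field_simp
      linear_combination (-(sg t) * m2) - 2 * b * x 1 * ht
    · rw [PiLp.add_apply, PiLp.smul_apply, PiLp.smul_apply, dirD, mk2, mk2, smul_eq_mul,
        smul_eq_mul]
      ring

/-- the face angle at the apex in the face on the sphere `1` -/
theorem faceAngle (θ : ℝ) :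
    IsFaceAngle (ctr a b h k) 0 (G (ctr a b h k) {1}) θ ↔
      θ = InnerProductGeometry.angle (dirD a b h k true true) (dirD a b h k true false) := by
  have T := P.typ
  have comb : ∀ I ∈ LL, I.card = 2 → {1} ⊆ I → I ⊆ {1, 2, 3, 4} → ∃ t, I = {i1 true, i2 t} := by
    decide +kernel
  have ang : ∀ s t, InnerProductGeometry.angle (‖dirD a b h k true s‖⁻¹ • dirD a b h k true s)
      (‖dirD a b h k true t‖⁻¹ • dirD a b h k true t)
      = InnerProductGeometry.angle (dirD a b h k true s) (dirD a b h k true t) := by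
    intro s t
    rw [InnerProductGeometry.angle_smul_left_of_pos _ _ (inv_pos.mpr (P.dirD_pos true s)),
      InnerProductGeometry.angle_smul_right_of_pos _ _ (inv_pos.mpr (P.dirD_pos true t))]
  have edge : ∀ e, IsEdge (ctr a b h k) e → e ⊆ G (ctr a b h k) {1} → 0 ∈ e → ∀ u,
      IsTangentDir e 0 u → ∃ t, e = G (ctr a b h k) {i1 true, i2 t} ∧
        u = ‖dirD a b h k true t‖⁻¹ • dirD a b h k true t := by
    intro e he heF h0 u hu
    obtain ⟨I, hI, hc, rfl⟩ := (T.isEdge_iff e).mp he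
    have h1 := (T.G_subset_iff hI).mp heF
    have h2 : I ⊆ {1, 2, 3, 4} := by rw [← P.supp_zero]; exact h0.2
    obtain ⟨t, rfl⟩ := comb I hI hc h1 h2
    refine ⟨t, rfl, ?_⟩
    have := hu.2.1
    exact tendsto_nhds_unique hu.2.2 (P.tangent true t).2.2
  have mem : ∀ t, ({i1 true, i2 t} : Finset (Fin 5)) ∈ LL := by decide +kernel
  have card : ∀ t, ({i1 true, i2 t} : Finset (Fin 5)).card = 2 := by decide +kernel
  have zmem : ∀ t, (0 : E3) ∈ G (ctr a b h k) {i1 true, i2 t} := by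
    intro t
    refine ⟨P.zero_mem, ?_⟩
    rw [P.supp_zero]
    cases t <;> decide
  have sub1 : ∀ t, G (ctr a b h k) {i1 true, i2 t} ⊆ G (ctr a b h k) {1} := by
    intro t
    rw [T.G_subset_iff (mem t)]
    cases t <;> decide
  constructor
  · rintro ⟨e₁, e₂, h1, h2, hne, hs1, hs2, hv1, hv2, u₁, u₂, hu1, hu2, rfl⟩
    obtain ⟨t1, g1, rfl⟩ := edge e₁ h1 hs1 hv1 u₁ hu1
    obtain ⟨t2, g2, rfl⟩ := edge e₂ h2 hs2 hv2 u₂ hu2
    rw [ang]
    cases t1 <;> cases t2
    · exact absurd (g1.trans g2.symm) hne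
    · rw [InnerProductGeometry.angle_comm]
    · rfl
    · exact absurd (g1.trans g2.symm) hne
  · rintro rfl
    refine ⟨G (ctr a b h k) {i1 true, i2 true}, G (ctr a b h k) {i1 true, i2 false},
      (T.isEdge_iff _).mpr ⟨_, mem true, card true, rfl⟩,
      (T.isEdge_iff _).mpr ⟨_, mem false, card false, rfl⟩, ?_, sub1 true, sub1 false, zmem true,
      zmem false, _, _, P.tangent true true, P.tangent true false, (ang true false).symm⟩
    intro heq
    have := T.G_inj (mem true) (mem false) heq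
    revert this; decide

theorem cos_faceAngle :
    Real.cos (InnerProductGeometry.angle (dirD a b h k true true) (dirD a b h k true false))
      = ((h / a) ^ 2 - (k / b) ^ 2 + 1) / ((h / a) ^ 2 + (k / b) ^ 2 + 1) := by
  rw [InnerProductGeometry.cos_angle, inner_dirD]
  have e1 := norm_dirD_sq a b h k true true
  have e2 := norm_dirD_sq a b h k true false
  have h1 : ‖dirD a b h k true true‖ = ‖dirD a b h k true false‖ := by
    have := P.dirD_pos true true
    have := P.dirD_pos true false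
    have h3 : ‖dirD a b h k true true‖ ^ 2 = ‖dirD a b h k true false‖ ^ 2 := by rw [e1, e2]
    nlinarith
  rw [h1, ← sq, e2]

theorem dist_0_1 (s : Bool) : dist (ctr a b h k 0) (ctr a b h k (i1 s)) = 1 := by
  rw [dist1_eq P.e1]
  have : ctr a b h k 0 = !₂[0, 0, 0] := by simp [ctr]
  rw [this, r2_mk, mk0, mk2]
  norm_num

theorem dist_0_2 (s : Bool) : dist (ctr a b h k 0) (ctr a b h k (i2 s)) = 1 := by
  rw [dist2_eq P.e2]
  have : ctr a b h k 0 = !₂[0, 0, 0] := by simp [ctr]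
  rw [this, r2_mk, mk1, mk2]
  norm_num

theorem dist_1_2 (s t : Bool) :
    dist (ctr a b h k (i1 s)) (ctr a b h k (i2 t)) = Real.sqrt (2 - 2 * (h * k)) := by
  rw [ctr_i1, ctr_i2, dist_sq_ctr, mk0, mk1, mk2]
  congr 1
  have hs := sg_sq s
  have ht := sg_sq t
  linear_combination a ^ 2 * hs + b ^ 2 * ht + P.e1 + P.e2

end Par

theorem main_thm {a b h k x0 y0 z0 a' b' h' k' x0' y0' z0' : ℝ}
    (P : Par a b h k x0 y0 z0) (P' : Par a' b' h' k' x0' y0' z0') (hhk : h * k = h' * k')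
    (hne : ((h / a) ^ 2 - (k / b) ^ 2 + 1) / ((h / a) ^ 2 + (k / b) ^ 2 + 1)
      ≠ ((h' / a') ^ 2 - (k' / b') ^ 2 + 1) / ((h' / a') ^ 2 + (k' / b') ^ 2 + 1)) :
    ∃ c c' : Fin 5 → E3, IsStandard c ∧ IsStandard c' ∧
      ∃ φ : facePoset c ≃o facePoset c',
        (∀ A, (∃ v, IsVertex c v ∧ A.1 = {v}) ↔ (∃ v, IsVertex c' v ∧ (φ A).1 = {v})) ∧
        (∀ A, IsEdge c A.1 ↔ IsEdge c' (φ A).1) ∧
        (∀ A, IsFace c A.1 ↔ IsFace c' (φ A).1) ∧
        (∀ A, IsEdge c A.1 → ∃ θ, (∀ t, IsInnerDihedralAngle c A.1 t ↔ t = θ) ∧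
          (∀ t, IsInnerDihedralAngle c' (φ A).1 t ↔ t = θ)) ∧
        ∃ (V F : facePoset c) (v v' : E3) (α β : ℝ),
          IsVertex c v ∧ V.1 = {v} ∧ IsVertex c' v' ∧ (φ V).1 = {v'} ∧ IsFace c F.1 ∧ V ≤ F ∧
          (∀ t, IsFaceAngle c v F.1 t ↔ t = α) ∧ (∀ t, IsFaceAngle c' v' (φ F).1 t ↔ t = β) ∧
          α ≠ β := by
  have T := P.typ
  have T' := P'.typ
  obtain ⟨φ, hφ⟩ := T.exists_iso T'
  refine ⟨ctr a b h k, ctr a' b' h' k', T.isStandard P.isBallPolyhedron,
    T'.isStandard P'.isBallPolyhedron, φ, ?_, ?_, ?_, ?_, ?_⟩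
  · intro A
    rw [T.isVertex_iff', T'.isVertex_iff', hφ A _ (T.idx_mem A) (T.idx_eq A)]
    constructor
    · rintro ⟨I, hI, hc, hu, h⟩
      exact ⟨I, hI, hc, hu, by rw [T.idx_of hI A h]⟩
    · rintro ⟨I, hI, hc, hu, h⟩
      have := T'.G_inj (T.idx_mem A) hI h
      exact ⟨I, hI, hc, hu, by rw [← this]; exact T.idx_eq A⟩
  · intro A
    rw [T.isEdge_iff, T'.isEdge_iff, hφ A _ (T.idx_mem A) (T.idx_eq A)]
    constructor
    · rintro ⟨I, hI, hc, h⟩
      exact ⟨I, hI, hc, by rw [T.idx_of hI A h]⟩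
    · rintro ⟨I, hI, hc, h⟩
      have := T'.G_inj (T.idx_mem A) hI h
      exact ⟨I, hI, hc, by rw [← this]; exact T.idx_eq A⟩
  · intro A
    rw [Typ.isFace_iff, Typ.isFace_iff, hφ A _ (T.idx_mem A) (T.idx_eq A)]
    constructor
    · rintro ⟨I, hc, h⟩
      obtain ⟨i, rfl⟩ := Finset.card_eq_one.mp hc
      exact ⟨{i}, hc, by rw [T.idx_of (T.hsing i) A h]⟩
    · rintro ⟨I, hc, h⟩
      obtain ⟨i, rfl⟩ := Finset.card_eq_one.mp hc
      have := T'.G_inj (T.idx_mem A) (T.hsing i) h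
      exact ⟨{i}, hc, by rw [← this]; exact T.idx_eq A⟩
  · intro A hA
    obtain ⟨I, hI, hc, h⟩ := (T.isEdge_iff _).mp hA
    rw [hφ A I hI h, h]
    rcases LL_pairs I hI hc with ⟨s, rfl⟩ | ⟨s, rfl⟩ | ⟨s, t, rfl⟩
    · have hij : (0 : Fin 5) ≠ i1 s := by cases s <;> decide
      refine ⟨Real.pi - Real.arccos (1 - 1 ^ 2 / 2), fun t => ?_, fun t => ?_⟩
      · rw [T.dihedral _ _ hij hI, P.dist_0_1]
      · rw [T'.dihedral _ _ hij hI, P'.dist_0_1]
    · have hij : (0 : Fin 5) ≠ i2 s := by cases s <;> decide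
      refine ⟨Real.pi - Real.arccos (1 - 1 ^ 2 / 2), fun t => ?_, fun t => ?_⟩
      · rw [T.dihedral _ _ hij hI, P.dist_0_2]
      · rw [T'.dihedral _ _ hij hI, P'.dist_0_2]
    · have hij : i1 s ≠ i2 t := by cases s <;> cases t <;> decide
      refine ⟨Real.pi - Real.arccos (1 - Real.sqrt (2 - 2 * (h' * k')) ^ 2 / 2), fun t => ?_,
        fun t => ?_⟩
      · rw [T.dihedral _ _ hij hI, P.dist_1_2, hhk]
      · rw [T'.dihedral _ _ hij hI, P'.dist_1_2]
  · have hV : ({1, 2, 3, 4} : Finset (Fin 5)) ∈ LL := by decide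
    have hF : ({1} : Finset (Fin 5)) ∈ LL := by decide
    have gz : ∀ {a b h k x0 y0 z0 : ℝ} (P : Par a b h k x0 y0 z0),
        G (ctr a b h k) {1, 2, 3, 4} = {0} := by
      intro a b h k x0 y0 z0 P
      refine (P.hD _ hV (by decide)).eq_singleton_of_mem ⟨P.zero_mem, ?_⟩
      rw [P.supp_zero]
    have vz : ∀ {a b h k x0 y0 z0 : ℝ} (P : Par a b h k x0 y0 z0),
        IsVertex (ctr a b h k) 0 := by
      intro a b h k x0 y0 z0 P
      rw [isVertex_iff, P.supp_zero]
      exact ⟨P.zero_mem, by decide⟩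
    set V : facePoset (ctr a b h k) := ⟨G (ctr a b h k) {1, 2, 3, 4},
      (T.mem_facePoset_iff _).mpr ⟨_, hV, rfl⟩⟩ with hVdef
    set F : facePoset (ctr a b h k) := ⟨G (ctr a b h k) {1},
      (T.mem_facePoset_iff _).mpr ⟨_, hF, rfl⟩⟩ with hFdef
    refine ⟨V, F, 0, 0, _,
      InnerProductGeometry.angle (dirD a' b' h' k' true true) (dirD a' b' h' k' true false),
      vz P, gz P, vz P', ?_, ?_, ?_, P.faceAngle, ?_, ?_⟩
    · rw [hφ V _ hV rfl]; exact gz P'
    · rw [Typ.isFace_iff]; exact ⟨{1}, by simp, rfl⟩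
    · change G (ctr a b h k) {1, 2, 3, 4} ⊆ G (ctr a b h k) {1}
      rw [T.G_subset_iff hV]; decide
    · intro t
      rw [hφ F _ hF rfl]
      exact P'.faceAngle t
    · intro h
      have := congrArg Real.cos h
      rw [P.cos_faceAngle, P'.cos_faceAngle] at this
      exact hne this

/-! ### Numerical parameters -/

/-- Existence of the base vertex by the intermediate value theorem. -/
theorem exists_par {a b h k : ℝ} (ha : 0 < a) (hb : 0 < b) (hh : 0 < h) (hk : 0 < k)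
    (e1 : a ^ 2 + h ^ 2 = 1) (e2 : b ^ 2 + k ^ 2 = 1)
    (n1 : (k - h) ^ 2 < b ^ 2 * (4 * h ^ 2 - 1)) (n2 : (h - k) ^ 2 < a ^ 2 * (4 * k ^ 2 - 1))
    (t : ℝ) (ht0 : 0 < t) (ht1 : t ≤ 1) (hht : 1 / 2 < h * t) (hkt : 1 / 2 < k * t)
    (hq : ((h * t - 1 / 2) / a) ^ 2 + ((k * t - 1 / 2) / b) ^ 2 + t ^ 2 ≤ 1) :
    ∃ x0 y0 z0 : ℝ, Par a b h k x0 y0 z0 := by
  have hcont : ContinuousOn (fun z : ℝ => ((h * z - 1 / 2) / a) ^ 2 + ((k * z - 1 / 2) / b) ^ 2
      + z ^ 2) (Icc t 1) := by fun_prop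
  have hmem : (1 : ℝ) ∈ Icc (((h * t - 1 / 2) / a) ^ 2 + ((k * t - 1 / 2) / b) ^ 2 + t ^ 2)
      (((h * 1 - 1 / 2) / a) ^ 2 + ((k * 1 - 1 / 2) / b) ^ 2 + (1 : ℝ) ^ 2) := by
    refine ⟨hq, ?_⟩
    have := sq_nonneg ((h * 1 - 1 / 2) / a)
    have := sq_nonneg ((k * 1 - 1 / 2) / b)
    linarith
  obtain ⟨z, hz, hz1⟩ := intermediate_value_Icc ht1 hcont hmem
  simp only at hz1
  have hz0 : 0 < z := lt_of_lt_of_le ht0 hz.1
  have g1 : 1 / 2 < h * z := lt_of_lt_of_le hht (mul_le_mul_of_nonneg_left hz.1 hh.le)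
  have g2 : 1 / 2 < k * z := lt_of_lt_of_le hkt (mul_le_mul_of_nonneg_left hz.1 hk.le)
  refine ⟨(h * z - 1 / 2) / a, (k * z - 1 / 2) / b, z, ha, hb, hh, hk, div_pos (by linarith) ha,
    div_pos (by linarith) hb, hz0, e1, e2, ?_, ?_, hz1, n1, n2⟩
  · field_simp; ring
  · field_simp; ring

theorem par_Q : ∃ x0 y0 z0 : ℝ, Par (3 / 5) (5 / 13) (4 / 5) (12 / 13) x0 y0 z0 := by
  refine exists_par (by norm_num) (by norm_num) (by norm_num) (by norm_num) (by norm_num)
    (by norm_num) (by norm_num) (by norm_num) (63 / 100) (by norm_num) (by norm_num)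
    (by norm_num) (by norm_num) (by norm_num)

theorem par_P : ∃ x0 y0 z0 : ℝ, Par (Real.sqrt (17 / 65)) (Real.sqrt (17 / 65))
    (Real.sqrt (48 / 65)) (Real.sqrt (48 / 65)) x0 y0 z0 := by
  have ha : 0 < Real.sqrt (17 / 65) := Real.sqrt_pos.mpr (by norm_num)
  have hh : 0 < Real.sqrt (48 / 65) := Real.sqrt_pos.mpr (by norm_num)
  have ha2 : Real.sqrt (17 / 65) ^ 2 = 17 / 65 := Real.sq_sqrt (by norm_num)
  have hh2 : Real.sqrt (48 / 65) ^ 2 = 48 / 65 := Real.sq_sqrt (by norm_num)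
  have hlo : 4 / 5 < Real.sqrt (48 / 65) := Real.lt_sqrt_of_sq_lt (by norm_num)
  have hhi : Real.sqrt (48 / 65) < 9 / 10 := by
    rw [Real.sqrt_lt' (by norm_num)]; norm_num
  refine exists_par ha ha hh hh (by rw [ha2, hh2]; norm_num) (by rw [ha2, hh2]; norm_num)
    (by rw [ha2, hh2]; norm_num) (by rw [ha2, hh2]; norm_num) (63 / 100) (by norm_num)
    (by norm_num) (by linarith) (by linarith) ?_
  rw [div_pow, ha2]
  have : (Real.sqrt (48 / 65) * (63 / 100) - 1 / 2) ^ 2 ≤ (9 / 10 * (63 / 100) - 1 / 2) ^ 2 := by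
    apply pow_le_pow_left₀
    · linarith
    · linarith
  have h3 : (Real.sqrt (48 / 65) * (63 / 100) - 1 / 2) ^ 2 / (17 / 65)
      ≤ (9 / 10 * (63 / 100) - 1 / 2) ^ 2 / (17 / 65) := by gcongr
  have h4 : ((9 / 10 * (63 / 100) - 1 / 2 : ℝ)) ^ 2 / (17 / 65) ≤ 1 / 50 := by norm_num
  norm_num
  norm_num at h3 h4
  linarith

/-- There are standard ball-polyhedra `P`, `Q` in Euclidean 3-space and an isomorphism `φ` of their
face lattices (matching vertices, edges and faces) such that corresponding inner dihedral angles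
agree, while some face angle of `P` differs from the corresponding face angle of `Q`. -/
theorem result :
    ∃ c c' : Fin 5 → E3, IsStandard c ∧ IsStandard c' ∧
      ∃ φ : facePoset c ≃o facePoset c',
        (∀ A, (∃ v, IsVertex c v ∧ A.1 = {v}) ↔ (∃ v, IsVertex c' v ∧ (φ A).1 = {v})) ∧
        (∀ A, IsEdge c A.1 ↔ IsEdge c' (φ A).1) ∧
        (∀ A, IsFace c A.1 ↔ IsFace c' (φ A).1) ∧
        (∀ A, IsEdge c A.1 → ∃ θ, (∀ t, IsInnerDihedralAngle c A.1 t ↔ t = θ) ∧
          (∀ t, IsInnerDihedralAngle c' (φ A).1 t ↔ t = θ)) ∧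
        ∃ (V F : facePoset c) (v v' : E3) (α β : ℝ),
          IsVertex c v ∧ V.1 = {v} ∧ IsVertex c' v' ∧ (φ V).1 = {v'} ∧ IsFace c F.1 ∧ V ≤ F ∧
          (∀ t, IsFaceAngle c v F.1 t ↔ t = α) ∧ (∀ t, IsFaceAngle c' v' (φ F).1 t ↔ t = β) ∧
          α ≠ β := by
  obtain ⟨_, _, _, P⟩ := par_P
  obtain ⟨_, _, _, Q⟩ := par_Q
  refine main_thm P Q ?_ ?_
  · rw [← sq, Real.sq_sqrt (by norm_num)]; norm_num
  · rw [div_pow, Real.sq_sqrt (by norm_num), Real.sq_sqrt (by norm_num)]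
    norm_num

end Pool.Agent.Results.MP_07b410_co.Stoker
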